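import Pool.Agent.H86.WSG.Curve

set_option autoImplicit false
set_option linter.unusedSectionVars false

namespace Pool.Agent.H86.WSG

open Polynomial
open Pool.Agent.H86.WSR (IsFunctionField IsPoint regularAway HasPoleOfOrder weierstrassSemigroup node node_ne
  DependOnAtMost)

variable {ν : ℕ → ℕ}

section

variable (k : Type) [Field k] [IsAlgClosed k] [CharZero k]

/-- the defining polynomial -/
noncomputable def gpoly (ν : ℕ → ℕ) (n : ℕ) : (RatFunc k)[X] :=
  X ^ 2 ^ n - C (algebraMap k[X] (RatFunc k) (radi k ν n))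

omit [IsAlgClosed k] in
lemma radi_split (h1 : 1 ≤ ν 0) {n : ℕ} (hn : 1 ≤ n) : ∃ r : k[X],
    radi k ν n = node k (Nat.pair (n - 1) 0) * r ∧ r.eval ((Nat.pair (n - 1) 0 : ℕ) : k) ≠ 0 := by
  obtain ⟨m, rfl⟩ : ∃ m, n = m + 1 := ⟨n - 1, by omega⟩
  obtain ⟨s, hs⟩ : ∃ s, ν 0 = s + 1 := ⟨ν 0 - 1, by omega⟩
  rw [Nat.add_sub_cancel]
  refine ⟨(∏ l ∈ Finset.range m, B k ν (m + 1) l ^ (2 ^ (m + 1) / 2 ^ (l + 1))) *
    ∏ t ∈ Finset.range s, node k (Nat.pair m (t + 1)), ?_, ?_⟩
  · rw [radi, G, Finset.prod_range_succ, Nat.div_self (by positivity), pow_one]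
    have e : B k ν (m + 1) m = (∏ t ∈ Finset.range s, node k (Nat.pair m (t + 1))) *
        node k (Nat.pair m 0) := by
      rw [B, Nat.add_sub_cancel, Nat.sub_self, hs, Finset.prod_range_succ']
    rw [e]; ring
  · have key : ∀ i t : ℕ, (i, t) ≠ (m, 0) →
        (node k (Nat.pair i t)).eval ((Nat.pair m 0 : ℕ) : k) ≠ 0 := by
      intro i t hne h
      rw [node, eval_sub, eval_X, eval_C, sub_eq_zero] at h
      have h2 : Nat.pair m 0 = Nat.pair i t := by exact_mod_cast h
      rw [Nat.pair_eq_pair] at h2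
      exact hne (Prod.ext h2.1.symm h2.2.symm)
    rw [eval_mul, eval_prod, eval_prod]
    apply mul_ne_zero
    · rw [Finset.prod_ne_zero_iff]
      intro l hl
      have hl' := Finset.mem_range.1 hl
      rw [eval_pow, B, eval_prod]
      apply pow_ne_zero
      rw [Finset.prod_ne_zero_iff]
      intro t _
      exact key _ _ (fun h => by simp only [Prod.mk.injEq] at h; omega)
    · rw [Finset.prod_ne_zero_iff]
      intro t _
      exact key _ _ (fun h => by simp only [Prod.mk.injEq] at h; omega)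

lemma irr (h1 : 1 ≤ ν 0) {n : ℕ} (hn : 1 ≤ n) : Irreducible (gpoly k ν n) := by
  have h2n : 0 < 2 ^ n := by positivity
  have hmonic : (X ^ 2 ^ n - C (radi k ν n) : k[X][X]).Monic := monic_X_pow_sub_C _ h2n.ne'
  obtain ⟨r, hr, hr0⟩ := radi_split k h1 hn
  set p : k[X] := node k (Nat.pair (n - 1) 0) with hp
  have hp0 : p ≠ 0 := node_ne _
  have hprime : Prime p := prime_X_sub_C _
  have hP : (Ideal.span {p}).IsPrime := by
    rw [Ideal.span_singleton_prime hp0]; exact hprime
  have hE : (X ^ 2 ^ n - C (radi k ν n) : k[X][X]).IsEisensteinAt (Ideal.span {p}) := by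
    refine ⟨?_, ?_, ?_⟩
    · rw [hmonic.leadingCoeff]
      exact fun h => hP.ne_top ((Ideal.eq_top_iff_one _).2 h)
    · intro m hm
      rw [natDegree_X_pow_sub_C] at hm
      rw [coeff_sub, coeff_X_pow, if_neg hm.ne, zero_sub, coeff_C]
      split_ifs
      · rw [Ideal.mem_span_singleton, dvd_neg, hr]
        exact Dvd.intro _ rfl
      · rw [neg_zero]; exact Ideal.zero_mem _
    · rw [coeff_sub, coeff_X_pow, if_neg h2n.ne, zero_sub, coeff_C_zero, Ideal.span_singleton_pow,
        Ideal.mem_span_singleton, dvd_neg, hr, sq, mul_dvd_mul_iff_left hp0]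
      intro h
      rw [hp] at h
      unfold node at h
      rw [dvd_iff_isRoot, IsRoot.def] at h
      exact hr0 h
  have hirr : Irreducible (X ^ 2 ^ n - C (radi k ν n) : k[X][X]) :=
    hE.irreducible hP hmonic.isPrimitive (by rw [natDegree_X_pow_sub_C]; exact h2n)
  have h3 := (hmonic.irreducible_iff_irreducible_map_fraction_map (K := RatFunc k)).1 hirr
  have h4 : (X ^ 2 ^ n - C (radi k ν n) : k[X][X]).map (algebraMap k[X] (RatFunc k)) = gpoly k ν n := by
    rw [gpoly, Polynomial.map_sub, Polynomial.map_pow, map_X, map_C]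
  rwa [h4] at h3

variable {k} in
lemma eval₂_gpoly {T : Type} [CommRing T] (n : ℕ) (i : RatFunc k →+* T) (t : T) :
    eval₂ i t (gpoly k ν n) = t ^ 2 ^ n - i (algebraMap k[X] (RatFunc k) (radi k ν n)) := by
  rw [gpoly, eval₂_sub, eval₂_pow, eval₂_X, eval₂_C]

theorem exists_pointed_curve (h0 : ν 0 % 2 = 1) {n : ℕ} (hn : 1 ≤ n) : ∃ (K : Type) (_ : Field K) (_ : Algebra k K),
    IsFunctionField k K ∧ ∃ P : ValuationSubring K, IsPoint k P ∧
      weierstrassSemigroup k P = (Sg ν n : Set ℕ) := by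
  have h2n : 2 ^ n ≠ 0 := by positivity
  have : Fact (Irreducible (gpoly k ν n)) := ⟨irr k (by omega) hn⟩
  have hmonic : (gpoly k ν n).Monic := monic_X_pow_sub_C _ h2n
  have : FiniteDimensional (RatFunc k) (AdjoinRoot (gpoly k ν n)) := hmonic.finite_adjoinRoot
  refine ⟨AdjoinRoot (gpoly k ν n), inferInstance, inferInstance, ?_⟩
  set w : AdjoinRoot (gpoly k ν n) := AdjoinRoot.root (gpoly k ν n) with hw
  have hwn : w ^ 2 ^ n = algebraMap k[X] (AdjoinRoot (gpoly k ν n)) (radi k ν n) := by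
    have h3 := AdjoinRoot.eval₂_root (gpoly k ν n)
    rw [gpoly, eval₂_sub, eval₂_pow, eval₂_X, eval₂_C, sub_eq_zero] at h3
    exact h3
  apply exists_of_tower (F := RatFunc k) h0 hn (w := w) hwn
  · intro f
    obtain ⟨p, rfl⟩ := AdjoinRoot.mk_surjective f
    refine ⟨(p %ₘ gpoly k ν n).coeff, ?_⟩
    have h3 : AdjoinRoot.mk (gpoly k ν n) p = AdjoinRoot.mk (gpoly k ν n) (p %ₘ gpoly k ν n) := by
      rw [AdjoinRoot.mk_eq_mk]
      refine ⟨p /ₘ gpoly k ν n, ?_⟩
      have := modByMonic_add_div p (gpoly k ν n)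
      linear_combination (-1 : (RatFunc k)[X]) * this
    have hdeg : (p %ₘ gpoly k ν n).natDegree < 2 ^ n := by
      have h4 := natDegree_modByMonic_lt p hmonic (by
        intro h
        have := congrArg natDegree h
        rw [gpoly, natDegree_X_pow_sub_C, natDegree_one] at this
        exact h2n this)
      rwa [show (gpoly k ν n).natDegree = 2 ^ n from natDegree_X_pow_sub_C] at h4
    rw [h3, ← AdjoinRoot.aeval_eq, aeval_eq_sum_range' hdeg]
  · intro ζ hζ
    have hE : eval₂ (Algebra.ofId (RatFunc k) (AdjoinRoot (gpoly k ν n))).toRingHom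
        (algebraMap k[X] (AdjoinRoot (gpoly k ν n)) (C ζ) * w) (gpoly k ν n) = 0 := by
      have e : (Algebra.ofId (RatFunc k) (AdjoinRoot (gpoly k ν n)))
          (algebraMap k[X] (RatFunc k) (radi k ν n)) =
          algebraMap k[X] (AdjoinRoot (gpoly k ν n)) (radi k ν n) := by
        rw [Algebra.ofId_apply, ← IsScalarTower.algebraMap_apply]
      have e2 : (algebraMap k[X] (AdjoinRoot (gpoly k ν n)) (C ζ)) ^ 2 ^ n = 1 := by
        rw [← map_pow, ← C_pow, hζ, C_1, map_one]
      refine (eval₂_gpoly _ _ _).trans ?_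
      rw [mul_pow, hwn, e2, one_mul, sub_eq_zero]
      exact e.symm
    refine ⟨AdjoinRoot.liftAlgHom (gpoly k ν n) (Algebra.ofId _ _)
      (algebraMap k[X] (AdjoinRoot (gpoly k ν n)) (C ζ) * w) hE, ?_⟩
    rw [AdjoinRoot.coe_liftAlgHom]
    exact AdjoinRoot.lift_root hE

end

section count

open Finset

lemma card_PI_le (h0 : ν 0 % 2 = 1) {M : ℕ} (hν : ∀ l, 1 ≤ ν l ∧ ν l ≤ M) {n : ℕ} (i : Fin n) :
    (PI ν i).card ≤ (4 * M + 1) * ((4 * M + 1) * (n + 1) ^ (4 * M)) := by
  classical
  set K := 4 * M with hK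
  have h1 : (PI ν i).card ≤ ((range (K + 1)) ×ˢ ((range (K + 1)).biUnion fun j =>
      powersetCard j (Finset.univ : Finset (Fin n)))).card := by
    apply card_le_card_of_injOn
      (fun u => (u 0, Finset.univ.filter fun j : Fin n => u j.succ = 1))
    · intro u hu
      obtain ⟨hu1, hu2⟩ := (mem_PI h0).1 hu
      have h2 := deg_le hν hu2
      simp only [coe_product, Set.mem_prod, mem_coe, mem_range, mem_biUnion, mem_powersetCard,
        subset_univ, true_and]
      refine ⟨by omega, _, ?_, rfl⟩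
      have h3 : (Finset.univ.filter fun j : Fin n => u j.succ = 1).card ≤ dg u := by
        rw [card_filter]
        refine sum_le_sum fun j _ => ?_
        split_ifs with h
        · omega
        · omega
      omega
    · intro u hu v hv huv
      obtain ⟨hu1, -⟩ := (mem_PI h0).1 hu
      obtain ⟨hv1, -⟩ := (mem_PI h0).1 hv
      simp only [Prod.mk.injEq] at huv
      obtain ⟨h0, h1⟩ := huv
      funext j
      refine Fin.cases h0 (fun j => ?_) j
      have h2 := hu1 j
      have h3 := hv1 j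
      have h4 : u j.succ = 1 ↔ v j.succ = 1 := by
        have := congrArg (fun s => j ∈ s) h1
        simpa using this
      omega
  refine h1.trans ?_
  rw [card_product, card_range]
  apply Nat.mul_le_mul_left
  refine card_biUnion_le.trans ?_
  calc ∑ j ∈ range (K + 1), (powersetCard j (Finset.univ : Finset (Fin n))).card
      ≤ ∑ _j ∈ range (K + 1), (n + 1) ^ K := by
        refine sum_le_sum fun j hj => ?_
        rw [card_powersetCard, card_univ, Fintype.card_fin]
        calc n.choose j ≤ n ^ j := Nat.choose_le_pow n j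
          _ ≤ (n + 1) ^ j := Nat.pow_le_pow_left (Nat.le_succ n) j
          _ ≤ (n + 1) ^ K := Nat.pow_le_pow_right (Nat.succ_pos n)
              (Nat.lt_succ_iff.1 (mem_range.1 hj))
    _ = (K + 1) * (n + 1) ^ K := by
        rw [sum_const, card_range, smul_eq_mul]

theorem depend (h0 : ν 0 % 2 = 1) {M : ℕ} (hν : ∀ l, 1 ≤ ν l ∧ ν l ≤ M) (k : Type) [Field k]
    [IsAlgClosed k] (n : ℕ) :
    DependOnAtMost k (Sg ν n : Set ℕ) (n * ((4 * M + 1) * ((4 * M + 1) * (n + 1) ^ (4 * M)))) := by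
  apply dependOnAtMost h0
  calc ∑ i : Fin n, (PI ν i).card ≤ ∑ _i : Fin n, (4 * M + 1) * ((4 * M + 1) * (n + 1) ^ (4 * M)) :=
        sum_le_sum fun i _ => card_PI_le h0 hν i
    _ = n * ((4 * M + 1) * ((4 * M + 1) * (n + 1) ^ (4 * M))) := by
        rw [sum_const, card_univ, Fintype.card_fin, smul_eq_mul]

end count

end Pool.Agent.H86.WSG
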