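import Pool.Agent.H86.WSG.Upper
import Pool.Agent.H86.WSR.Exist

set_option autoImplicit false
set_option linter.unusedSectionVars false

namespace Pool.Agent.H86.WSG

open IsLocalRing
open Pool.Agent.H86.WSR (IsFunctionField IsPoint regularAway HasPoleOfOrder weierstrassSemigroup IsUnif
  val_const_le val_const isIntegral_of_forall exists_pole)

variable {ν : ℕ → ℕ}



section

variable {n : ℕ} {k K : Type} [Field k] [Field K] [Algebra k K]

/-- the tower of square roots -/
structure Tower (ν : ℕ → ℕ) (n : ℕ) (k : Type) {K : Type} [Field k] [Field K] [Algebra k K] (x : K)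
    (y : ℕ → K) (b : ℕ → ℕ → k) : Prop where
  rel : ∀ i, i < n → y i ^ 2 =
    (∏ t ∈ Finset.range (ν (n - 1 - i)), (x - algebraMap k K (b i t))) * y (i + 1)
  top : y n = 1

/-- the generators -/
def gen (n : ℕ) {K : Type} (x : K) (y : ℕ → K) : Fin (n + 1) → K := Fin.cons x (fun i : Fin n => y i)

/-- the valuations at a pole of `x` -/
lemma vals {Q : ValuationSubring K} (hQ : IsPoint k Q) {x : K} {y : ℕ → K} {b : ℕ → ℕ → k}
    (hT : Tower ν n k x y b) {α β : ℕ} (hαβ : α * D ν n = β * 2 ^ n + 1) (hx : x ∉ Q) :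
    1 < Q.valuation (y 0) ^ α / Q.valuation x ^ β ∧
      ∀ j, Q.valuation (gen n x y j) = (Q.valuation (y 0) ^ α / Q.valuation x ^ β) ^ gw ν n j := by
  have hx1 : 1 < Q.valuation x := by
    rw [← Q.valuation_le_one_iff, not_le] at hx; exact hx
  have hsub : ∀ c : k, Q.valuation (x - algebraMap k K c) = Q.valuation x := by
    intro c
    have h1 : Q.valuation (algebraMap k K c) < Q.valuation x := lt_of_le_of_lt (val_const_le hQ c) hx1
    rw [Valuation.map_sub_eq_of_lt_left _ h1]
  set u := Q.valuation x with hu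
  have hu0 : u ≠ 0 := (lt_trans zero_lt_one hx1).ne'
  have hy : ∀ m, m ≤ n → Q.valuation (y (n - m)) ^ 2 ^ m = u ^ D ν m := by
    intro m
    induction m with
    | zero =>
      intro _
      rw [Nat.sub_zero, hT.top, map_one]
      simp [D]
    | succ m ih =>
      intro hm
      have h1 := ih (by omega)
      have h2 := congrArg Q.valuation (hT.rel (n - (m + 1)) (by omega))
      have e1 : n - (m + 1) + 1 = n - m := by omega
      have e2 : n - 1 - (n - (m + 1)) = m := by omega
      rw [map_pow, map_mul, map_prod, e1, e2] at h2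
      simp only [hsub, Finset.prod_const, Finset.card_range] at h2
      rw [pow_succ' 2 m, pow_mul, h2, mul_pow, h1, ← pow_mul, ← pow_add, D_succ, add_comm]
  set q := Q.valuation (y 0) ^ α / u ^ β with hq
  have hun : q ^ 2 ^ n = u := by
    have h1 := hy n le_rfl
    rw [Nat.sub_self] at h1
    rw [hq, div_pow, ← pow_mul, mul_comm α, pow_mul, h1, ← pow_mul, mul_comm (D ν n), hαβ, pow_succ,
      ← pow_mul, mul_div_assoc, mul_comm, div_mul_cancel₀ _ (pow_ne_zero _ hu0)]
  refine ⟨?_, ?_⟩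
  · by_contra h
    rw [not_lt] at h
    have := pow_le_one₀ (zero_le (a := q)) h (n := 2 ^ n)
    rw [hun] at this
    exact absurd hx1 (not_lt.2 this)
  · intro j
    refine Fin.cases ?_ (fun j => ?_) j
    · rw [gw_zero]; exact hun.symm
    · rw [gw_succ]
      simp only [gen, Fin.cons_succ]
      have hj := j.2
      have h1 := hy (n - j) (by omega)
      have e1 : n - (n - (j : ℕ)) = j := by omega
      rw [e1] at h1
      have h2 : (q ^ (2 ^ (j : ℕ) * D ν (n - j))) ^ 2 ^ (n - (j : ℕ)) = u ^ D ν (n - j) := by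
        rw [← pow_mul]
        have e2 : 2 ^ (j : ℕ) * D ν (n - j) * 2 ^ (n - (j : ℕ)) = 2 ^ n * D ν (n - j) := by
          have : 2 ^ n = 2 ^ (j : ℕ) * 2 ^ (n - (j : ℕ)) := by
            rw [← pow_add]; congr 1; omega
          rw [this]; ring
        rw [e2, pow_mul, hun]
      exact (pow_left_inj₀ zero_le zero_le (by positivity)).1 (h1.trans h2.symm)

/-- the weight of a nonzero element of the span of the monomials -/
lemma exists_weight {x : K} {y : ℕ → K} {b : ℕ → ℕ → k}
    (h0 : ν 0 % 2 = 1) (hT : Tower ν n k x y b) {α β : ℕ} (hαβ : α * D ν n = β * 2 ^ n + 1)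
    {s : K} (hs : s ∈ W k (gen n x y)) (hs0 : s ≠ 0) :
    ∃ m ∈ Sg ν n, ∀ Q : ValuationSubring K, IsPoint k Q → x ∉ Q →
      Q.valuation s = (Q.valuation (y 0) ^ α / Q.valuation x ^ β) ^ m := by
  classical
  unfold W at hs
  rw [Finsupp.mem_span_range_iff_exists_finsupp] at hs
  obtain ⟨c, hc⟩ := hs
  have hne : c.support.Nonempty := by
    rw [Finset.nonempty_iff_ne_empty]
    intro h
    rw [Finsupp.support_eq_empty] at h
    rw [h, Finsupp.sum_zero_index] at hc
    exact hs0 hc.symm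
  obtain ⟨i0, hi0, hmax⟩ := Finset.exists_max_image _ (fun i => wt ν i.1) hne
  refine ⟨wt ν i0.1, (mem_Sg_iff _).2 ⟨_, i0.2, rfl⟩, fun Q hQ hxQ => ?_⟩
  obtain ⟨hq, hv⟩ := vals hQ hT hαβ hxQ
  obtain ⟨i1, hi1, hi1', hi2, hi3⟩ := val_sum_mon h0 hQ hq hv c.support c
    ⟨i0, hi0, Finsupp.mem_support_iff.1 hi0⟩
  have h1 : wt ν i1.1 = wt ν i0.1 := le_antisymm (hmax i1 hi1) (hi2 i0 hi0 (Finsupp.mem_support_iff.1 hi0))
  rw [← hc, Finsupp.sum, hi3, h1]

/-- there is at most one pole of `x` -/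
lemma unique_pole {x : K} {y : ℕ → K} {b : ℕ → ℕ → k}
    (h0 : ν 0 % 2 = 1) (hT : Tower ν n k x y b) {α β : ℕ} (hαβ : α * D ν n = β * 2 ^ n + 1)
    (hfrac : ∀ f : K, ∃ s ∈ W k (gen n x y), ∃ t ∈ W k (gen n x y), t ≠ 0 ∧ f = s / t)
    {Q Q' : ValuationSubring K} (hQ : IsPoint k Q) (hQ' : IsPoint k Q') (hx : x ∉ Q) (hx' : x ∉ Q') :
    Q = Q' := by
  have key : ∀ Q Q' : ValuationSubring K, IsPoint k Q → IsPoint k Q' → x ∉ Q → x ∉ Q' →
      ∀ f ∈ Q, f ∈ Q' := by
    intro Q Q' hQ hQ' hx hx' f hf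
    by_cases hf0 : f = 0
    · rw [hf0]; exact Q'.zero_mem
    obtain ⟨s, hs, t, ht, ht0, rfl⟩ := hfrac f
    have hs0 : s ≠ 0 := by rintro rfl; rw [zero_div] at hf0; exact hf0 rfl
    obtain ⟨m1, -, hn⟩ := exists_weight h0 hT hαβ hs hs0
    obtain ⟨m2, -, hm⟩ := exists_weight h0 hT hαβ ht ht0
    have hq := (vals hQ hT hαβ hx).1
    have hq' := (vals hQ' hT hαβ hx').1
    rw [← Q.valuation_le_one_iff, map_div₀, hn Q hQ hx, hm Q hQ hx,
      div_le_one₀ (pow_pos (lt_trans zero_lt_one hq) _), pow_le_pow_iff_right₀ hq] at hf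
    rw [← Q'.valuation_le_one_iff, map_div₀, hn Q' hQ' hx', hm Q' hQ' hx',
      div_le_one₀ (pow_pos (lt_trans zero_lt_one hq') _), pow_le_pow_iff_right₀ hq']
    exact hf
  ext f
  exact ⟨key Q Q' hQ hQ' hx hx' f, key Q' Q hQ' hQ hx' hx f⟩

/-- the Weierstrass semigroup at the pole of `x` -/
theorem semigroup_eq {x : K} {y : ℕ → K} {b : ℕ → ℕ → k}
    (h0 : ν 0 % 2 = 1) (hT : Tower ν n k x y b) {α β : ℕ} (hαβ : α * D ν n = β * 2 ^ n + 1)
    (hfrac : ∀ f : K, ∃ s ∈ W k (gen n x y), ∃ t ∈ W k (gen n x y), t ≠ 0 ∧ f = s / t)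
    (hint : ∀ f : K, (∀ V : ValuationSubring K, (∀ c : k, algebraMap k K c ∈ V) → x ∈ V → f ∈ V) →
      f ∈ W k (gen n x y))
    {P : ValuationSubring K} (hP : IsPoint k P) (hx : x ∉ P) :
    weierstrassSemigroup k P = (Sg ν n : Set ℕ) := by
  obtain ⟨hq, hv⟩ := vals hP hT hαβ hx
  have hx1 : P.valuation x ≠ 0 := by
    rw [← P.valuation_le_one_iff, not_le] at hx
    exact (lt_trans zero_lt_one hx).ne'
  set q := P.valuation (y 0) ^ α / P.valuation x ^ β with hqdef
  have hq0 : q ≠ 0 := (lt_trans zero_lt_one hq).ne'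
  have hx0 : x ≠ 0 := (Valuation.ne_zero_iff P.valuation).1 hx1
  have hy0 : y 0 ≠ 0 := by
    rintro h
    apply hq0
    have hα : α ≠ 0 := by
      rintro rfl
      rw [zero_mul] at hαβ
      omega
    rw [hqdef, h, map_zero, zero_pow hα, zero_div]
  set π := x ^ β / y 0 ^ α with hπdef
  have hvπ : P.valuation π = q⁻¹ := by
    rw [hπdef, map_div₀, map_pow, map_pow, hqdef, inv_div]
  have hπ : IsUnif P π := by
    refine ⟨div_ne_zero (pow_ne_zero _ hx0) (pow_ne_zero _ hy0), ?_, ?_⟩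
    · rw [hvπ]; exact inv_lt_one_of_one_lt₀ hq
    · intro f hf
      rw [hvπ]
      by_cases hf0 : f = 0
      · rw [hf0, map_zero]; exact zero_le
      obtain ⟨s, hs, t, ht, ht0, rfl⟩ := hfrac f
      have hs0 : s ≠ 0 := by rintro rfl; rw [zero_div] at hf0; exact hf0 rfl
      obtain ⟨m1, -, hn⟩ := exists_weight h0 hT hαβ hs hs0
      obtain ⟨m2, -, hm⟩ := exists_weight h0 hT hαβ ht ht0
      rw [map_div₀, hn P hP hx, hm P hP hx, ← hqdef, div_lt_one₀ (pow_pos (lt_trans zero_lt_one hq) _),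
        pow_lt_pow_iff_right₀ hq] at hf
      rw [map_div₀, hn P hP hx, hm P hP hx, ← hqdef, div_le_iff₀ (pow_pos (lt_trans zero_lt_one hq) _)]
      have h1 : m2 = (m2 - 1) + 1 := by omega
      rw [h1, pow_succ', inv_mul_cancel_left₀ hq0]
      exact pow_le_pow_right₀ hq.le (by omega)
  have hmem : ∀ f : K, f ∈ regularAway k P ↔ f ∈ W k (gen n x y) := by
    intro f
    constructor
    · intro hf
      apply hint
      intro V hV hxV
      by_cases htop : V = ⊤
      · rw [htop]; exact ValuationSubring.mem_top _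
      · refine hf V ⟨hV, htop⟩ ?_
        rintro rfl
        exact hx hxV
    · intro hf Q hQ hQP
      have hxQ : x ∈ Q := by
        by_contra hxQ
        exact hQP (unique_pole h0 hT hαβ hfrac hQ hP hxQ hx)
      have hyQ : ∀ m i : ℕ, i + m = n → y i ∈ Q := by
        intro m
        induction m with
        | zero =>
          intro i hi
          have : i = n := by omega
          rw [this, hT.top]
          exact one_mem _
        | succ m ih =>
          intro i hi
          have h1 : y i ^ 2 ∈ Q := by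
            rw [hT.rel i (by omega)]
            exact mul_mem (prod_mem fun t _ => sub_mem hxQ (hQ.1 _)) (ih (i + 1) (by omega))
          rw [← Q.valuation_le_one_iff, map_pow] at h1
          rw [← Q.valuation_le_one_iff]
          exact (pow_le_one_iff_of_nonneg zero_le (by norm_num)).1 h1
      have hgQ : ∀ j, gen n x y j ∈ Q := by
        intro j
        refine Fin.cases ?_ (fun j => ?_) j
        · exact hxQ
        · simp only [gen, Fin.cons_succ]
          exact hyQ (n - j) j (by have := j.2; omega)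
      unfold W at hf
      induction hf using Submodule.span_induction with
      | mem s hs =>
        obtain ⟨τ, rfl⟩ := hs
        exact prod_mem fun j _ => pow_mem (hgQ j) _
      | zero => exact Q.zero_mem
      | add s t _ _ hs ht => exact Q.add_mem _ _ hs ht
      | smul c s _ hs => rw [Algebra.smul_def]; exact Q.mul_mem _ _ (hQ.1 c) hs
  ext m
  constructor
  · rintro ⟨f, hf, hfn⟩
    rw [hπ.pole_iff] at hfn
    obtain ⟨hf0, hf1⟩ := hfn
    obtain ⟨m1, hm, hm'⟩ := exists_weight h0 hT hαβ ((hmem f).1 hf) hf0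
    rw [hm' P hP hx, ← hqdef, hvπ, inv_pow, ← div_eq_mul_inv, div_eq_one_iff_eq (pow_ne_zero _ hq0)] at hf1
    have : m1 = m := pow_right_injective₀ (lt_trans zero_lt_one hq) hq.ne' hf1
    rw [← this]; exact hm
  · intro hn
    obtain ⟨u, hu, rfl⟩ := (mem_Sg_iff m).1 hn
    have hmM : mon (gen n x y) u ∈ W k (gen n x y) := Submodule.subset_span ⟨⟨u, hu⟩, rfl⟩
    refine ⟨mon (gen n x y) u, (hmem _).2 hmM, (hπ.pole_iff _ _).2 ⟨?_, ?_⟩⟩
    · rw [← Valuation.ne_zero_iff P.valuation, val_mon hv]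
      exact pow_ne_zero _ hq0
    · rw [val_mon hv, hvπ, inv_pow]
      exact mul_inv_cancel₀ (pow_ne_zero _ hq0)

end

end Pool.Agent.H86.WSG
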