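import Pool.Agent.H86.WSG.Kummer
import Pool.Agent.H86.WSG.Exist
import Pool.Agent.H86.WSR.Curve

set_option autoImplicit false
set_option linter.unusedSectionVars false

namespace Pool.Agent.H86.WSG

open Polynomial
open Pool.Agent.H86.WSR (IsFunctionField IsPoint regularAway HasPoleOfOrder weierstrassSemigroup IsUnif
  val_const_le val_const isIntegral_of_forall exists_pole node node_ne comp_integral algebraMap_C
  algebraMap_inj alg)

variable {ν : ℕ → ℕ}

section

variable {k F K : Type} [Field k] [IsAlgClosed k] [CharZero k] [Field F] [Field K]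
  [Algebra k[X] F] [IsFractionRing k[X] F] [Algebra F K] [Algebra k[X] K] [IsScalarTower k[X] F K]
  [Algebra k K] [IsScalarTower k k[X] K]

/-- the functions `w ^ j / G j` -/
noncomputable def Yf (k : Type) [Field k] (ν : ℕ → ℕ) {K : Type} [Field K] [Algebra k[X] K] (n : ℕ) (w : K)
    (j : ℕ) : K := w ^ j / algebraMap k[X] K (G k ν n j)

/-- the functions `y_i` -/
noncomputable def yy (k : Type) [Field k] (ν : ℕ → ℕ) {K : Type} [Field K] [Algebra k[X] K] (n : ℕ) (w : K)
    (i : ℕ) : K := Yf k ν n w (2 ^ i)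

lemma Yf_digits (n : ℕ) (w : K) : ∀ m j : ℕ, j < 2 ^ m →
    Yf k ν n w j = ∏ i ∈ Finset.range m, yy k ν n w i ^ (j / 2 ^ i % 2) := by
  intro m
  induction m with
  | zero =>
    intro j hj
    have : j = 0 := by rw [pow_zero] at hj; omega
    subst this
    simp [Yf, G_zero]
  | succ m ih =>
    intro j hj
    rw [Finset.prod_range_succ]
    rcases Nat.lt_or_ge j (2 ^ m) with h | h
    · rw [Nat.div_eq_of_lt h, Nat.zero_mod, pow_zero, mul_one]
      exact ih j h
    · obtain ⟨j', rfl⟩ : ∃ j', j = j' + 2 ^ m := ⟨j - 2 ^ m, by omega⟩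
      have hj' : j' < 2 ^ m := by rw [pow_succ] at hj; omega
      have e1 : (j' + 2 ^ m) / 2 ^ m % 2 = 1 := by
        rw [Nat.add_div_right _ (by positivity), Nat.div_eq_of_lt hj']
      have e2 : ∀ i ∈ Finset.range m, yy k ν n w i ^ ((j' + 2 ^ m) / 2 ^ i % 2) =
          yy k ν n w i ^ (j' / 2 ^ i % 2) := by
        intro i hi
        have hi' := Finset.mem_range.1 hi
        obtain ⟨t, rfl⟩ := Nat.exists_eq_add_of_lt hi'
        congr 1
        have e3 : 2 ^ (i + t + 1) = 2 ^ i * (2 * 2 ^ t) := by ring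
        rw [e3, Nat.add_mul_div_left _ _ (by positivity), Nat.add_mul_mod_self_left]
      rw [e1, pow_one, Finset.prod_congr rfl e2, ← ih j' hj', yy, Yf, Yf, Yf, G_add hj', pow_add,
        map_mul, div_mul_div_comm]

lemma tower (F : Type) [Field F] [Algebra k[X] F] [IsFractionRing k[X] F] [Algebra F K]
    [IsScalarTower k[X] F K] {n : ℕ} {w : K}
    (hw : w ^ 2 ^ n = algebraMap k[X] K (radi k ν n)) :
    Tower ν n k (algebraMap k[X] K X) (yy k ν n w) (fun i t => ((Nat.pair i t : ℕ) : k)) := by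
  have hinj : Function.Injective (algebraMap k[X] K) := algebraMap_inj F
  have hne : ∀ p : k[X], p ≠ 0 → algebraMap k[X] K p ≠ 0 := fun p hp h =>
    hp (hinj (by rw [h, map_zero]))
  have hnode : ∀ i : ℕ, algebraMap k[X] K X - algebraMap k K (i : k) = algebraMap k[X] K (node k i) := by
    intro i
    rw [node, map_sub, algebraMap_C]
  constructor
  · intro i hi
    simp only [hnode]
    rw [← map_prod]
    change _ = algebraMap k[X] K (B k ν n i) * _
    rw [yy, yy, Yf, Yf, G_succ hi, map_mul, map_pow, div_pow, ← pow_mul, ← pow_succ]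
    have h1 := hne _ (B_ne (k := k) (ν := ν) n i)
    have h2 := hne _ (G_ne (k := k) (ν := ν) n (2 ^ i))
    field_simp
  · rw [yy, Yf, hw, radi, div_self (hne _ (G_ne _ _))]

lemma poly_mul_mem {n : ℕ} {y : ℕ → K} (p : k[X]) {e : Fin n → ℕ} (he : ∀ i, e i < 2) :
    algebraMap k[X] K p * ∏ i : Fin n, y i ^ e i ∈ W k (gen n (algebraMap k[X] K X) y) := by
  induction p using Polynomial.induction_on' with
  | add p q hp hq => rw [map_add, add_mul]; exact Submodule.add_mem _ hp hq
  | monomial m a =>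
    have e1 : algebraMap k[X] K (monomial m a) * ∏ i : Fin n, y i ^ e i
        = a • mon (gen n (algebraMap k[X] K X) y) (Fin.cons m e) := by
      rw [← C_mul_X_pow_eq_monomial, map_mul, algebraMap_C, map_pow, Algebra.smul_def]
      simp only [mon, gen]
      rw [Fin.prod_univ_succ]
      simp only [Fin.cons_zero, Fin.cons_succ]
      ring
    rw [e1]
    apply Submodule.smul_mem
    refine Submodule.subset_span ⟨⟨Fin.cons m e, fun i => ?_⟩, rfl⟩
    rw [Fin.cons_succ]
    exact he i

/-- integral elements are in the span of the monomials -/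
lemma mem_of_integral {n : ℕ} {w : K} (hw : w ^ 2 ^ n = algebraMap k[X] K (radi k ν n))
    (hspan : ∀ f : K, ∃ r : ℕ → F, f = ∑ i ∈ Finset.range (2 ^ n), r i • w ^ i)
    (hσ : ∀ ζ : k, ζ ^ 2 ^ n = 1 → ∃ σ : K →ₐ[F] K, σ w = algebraMap k[X] K (C ζ) * w)
    {f : K} (hf : IsIntegral k[X] f) : f ∈ W k (gen n (algebraMap k[X] K X) (yy k ν n w)) := by
  have hinj : Function.Injective (algebraMap k[X] K) := algebraMap_inj F
  have hne : ∀ p : k[X], p ≠ 0 → algebraMap k[X] K p ≠ 0 := fun p hp h =>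
    hp (hinj (by rw [h, map_zero]))
  obtain ⟨r, hr⟩ := hspan f
  -- a primitive root of unity
  have h2n : ((2 ^ n : ℕ) : k) ≠ 0 := by
    rw [Nat.cast_pow]; exact pow_ne_zero _ (by norm_num)
  obtain ⟨ζ, hζ⟩ : ∃ ζ : k, IsPrimitiveRoot ζ (2 ^ n) := by
    have : NeZero ((2 ^ n : ℕ) : k) := ⟨h2n⟩
    have hdeg : (cyclotomic (2 ^ n) k).degree ≠ 0 := by
      rw [degree_cyclotomic]
      intro h
      have h2 : Nat.totient (2 ^ n) = 0 := by exact_mod_cast h
      rw [Nat.totient_eq_zero] at h2
      exact absurd h2 (by positivity)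
    obtain ⟨ζ, hζ⟩ := IsAlgClosed.exists_root (cyclotomic (2 ^ n) k) hdeg
    exact ⟨ζ, isRoot_cyclotomic_iff.1 hζ⟩
  obtain ⟨σ, hσ'⟩ := hσ ζ hζ.pow_eq_one
  have hζ' : IsPrimitiveRoot (algebraMap k[X] F (C ζ)) (2 ^ n) := by
    apply IsPrimitiveRoot.map_of_injective _ (IsFractionRing.injective k[X] F)
    exact hζ.map_of_injective C_injective
  have hu : IsUnit ((2 ^ n : ℕ) : k[X]) := by
    rw [← C_eq_natCast, isUnit_C]
    exact IsUnit.mk0 _ h2n
  have hcomp := comp_integral (R := k[X]) (F := F) (K := K) (n := 2 ^ n) (by positivity) hu hζ' σ hσ' r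
    (by rw [← hr]; exact hf)
  rw [hr]
  refine Submodule.sum_mem _ fun j hj => ?_
  have hj' := Finset.mem_range.1 hj
  have hwj := hcomp j hj'
  -- the component
  have hF : IsIntegral k[X] (r j ^ 2 ^ n * algebraMap k[X] F (radi k ν n ^ j)) := by
    have h3 := hwj.pow (2 ^ n)
    have h4 : (r j • w ^ j) ^ 2 ^ n =
        algebraMap F K (r j ^ 2 ^ n * algebraMap k[X] F (radi k ν n ^ j)) := by
      rw [map_mul, ← IsScalarTower.algebraMap_apply k[X] F K, map_pow (algebraMap k[X] K) _ j,
        ← hw, Algebra.smul_def, mul_pow, map_pow (algebraMap F K)]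
      ring
    rw [h4] at h3
    exact (isIntegral_algebraMap_iff (algebraMap F K).injective).1 h3
  obtain ⟨c, hc⟩ := IsIntegrallyClosed.isIntegral_iff.1 hF
  obtain ⟨p, hp⟩ : ∃ p : k[X], r j * algebraMap k[X] F (G k ν n j) = algebraMap k[X] F p := by
    apply mem_of_pow (ν := ν) (n := n) (g := gg k ν n j) (c := c) (gg_dvd hj')
    rw [hc, mul_pow, mul_assoc, ← map_pow, ← map_mul, radi_pow]
  have e : r j • w ^ j = algebraMap k[X] K p * Yf k ν n w j := by
    rw [IsScalarTower.algebraMap_apply k[X] F K p, ← hp, map_mul, Algebra.smul_def,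
      ← IsScalarTower.algebraMap_apply, Yf, mul_assoc, mul_div_cancel₀ _ (hne _ (G_ne n j))]
  rw [e, Yf_digits n w n j hj', Finset.prod_range (fun i => yy k ν n w i ^ (j / 2 ^ i % 2))]
  exact poly_mul_mem (y := yy k ν n w) p (e := fun i : Fin n => j / 2 ^ (i : ℕ) % 2)
    (fun i => Nat.mod_lt _ (by norm_num))

lemma exists_bezout' {a n : ℕ} (ha : a % 2 = 1) : ∃ α β : ℕ, α * a = β * 2 ^ n + 1 := by
  induction n with
  | zero =>
    obtain ⟨t, ht⟩ : ∃ t, a = t + 1 := ⟨a - 1, by omega⟩
    exact ⟨1, t, by rw [ht]; ring⟩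
  | succ n ih =>
    obtain ⟨α, β, h⟩ := ih
    rcases Nat.even_or_odd' β with ⟨t, rfl | rfl⟩
    · exact ⟨α, t, by rw [h]; ring⟩
    · obtain ⟨s, hs⟩ : ∃ s, a = 2 * s + 1 := ⟨a / 2, by omega⟩
      refine ⟨α + 2 ^ n, t + 1 + s, ?_⟩
      rw [add_mul, h, hs]; ring

lemma exists_bezout (h0 : ν 0 % 2 = 1) {n : ℕ} (hn : 1 ≤ n) :
    ∃ α β : ℕ, α * D ν n = β * 2 ^ n + 1 := exists_bezout' (D_odd h0 hn)

/-- the existence of a pointed curve with semigroup `Sg ν n` -/
theorem exists_of_tower [FiniteDimensional F K] (h0 : ν 0 % 2 = 1) {n : ℕ} (hn : 1 ≤ n) {w : K}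
    (hw : w ^ 2 ^ n = algebraMap k[X] K (radi k ν n))
    (hspan : ∀ f : K, ∃ r : ℕ → F, f = ∑ i ∈ Finset.range (2 ^ n), r i • w ^ i)
    (hσ : ∀ ζ : k, ζ ^ 2 ^ n = 1 → ∃ σ : K →ₐ[F] K, σ w = algebraMap k[X] K (C ζ) * w) :
    IsFunctionField k K ∧ ∃ P : ValuationSubring K, IsPoint k P ∧
      weierstrassSemigroup k P = (Sg ν n : Set ℕ) := by
  have hinj : Function.Injective (algebraMap k[X] K) := algebraMap_inj F
  have halg : Algebra.IsAlgebraic k[X] K := alg F
  constructor
  · constructor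
    · classical
      refine ⟨{algebraMap k[X] K X, w}, ?_⟩
      rw [eq_top_iff]
      intro f _
      obtain ⟨r, rfl⟩ := hspan f
      set L := IntermediateField.adjoin k
        ((({algebraMap k[X] K X, w} : Finset K) : Set K)) with hL
      have hxL : algebraMap k[X] K X ∈ L := IntermediateField.subset_adjoin _ _ (by simp)
      have hwL : w ∈ L := IntermediateField.subset_adjoin _ _ (by simp)
      have hpL : ∀ p : k[X], algebraMap k[X] K p ∈ L := by
        intro p
        induction p using Polynomial.induction_on' with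
        | add p q hp hq => rw [map_add]; exact add_mem hp hq
        | monomial n a =>
          rw [← C_mul_X_pow_eq_monomial, map_mul, algebraMap_C, map_pow]
          exact mul_mem (L.algebraMap_mem a) (pow_mem hxL n)
      have hrL : ∀ s : F, algebraMap F K s ∈ L := by
        intro s
        obtain ⟨a, b, -, rfl⟩ := IsFractionRing.div_surjective (A := k[X]) s
        rw [map_div₀, ← IsScalarTower.algebraMap_apply, ← IsScalarTower.algebraMap_apply]
        exact div_mem (hpL a) (hpL b)
      refine sum_mem fun i _ => ?_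
      rw [Algebra.smul_def]
      exact mul_mem (hrL _) (pow_mem hwL i)
    · have : FaithfulSMul k[X] K := (faithfulSMul_iff_algebraMap_injective k[X] K).2 hinj
      rw [← trdeg_add_eq k k[X] (A := K), Polynomial.trdeg_of_isDomain, trdeg_eq_zero,
        add_zero]
  · have hxint : ¬ IsIntegral k (algebraMap k[X] K X) := by
      intro h
      have h3 : IsIntegral k (X : k[X]) := by
        have h4 : algebraMap k[X] K X = (IsScalarTower.toAlgHom k k[X] K) X := rfl
        rw [h4] at h
        exact (isIntegral_algHom_iff (IsScalarTower.toAlgHom k k[X] K) hinj).1 h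
      exact transcendental_X k h3.isAlgebraic
    have hmem : ∀ {f : K}, IsIntegral k[X] f → f ∈ W k (gen n (algebraMap k[X] K X) (yy k ν n w)) :=
      fun hf => mem_of_integral hw hspan hσ hf
    obtain ⟨P, hP, hxP⟩ := exists_pole hxint
    obtain ⟨α, β, hαβ⟩ : ∃ α β : ℕ, α * D ν n = β * 2 ^ n + 1 := exists_bezout h0 hn
    refine ⟨P, hP, semigroup_eq h0 (tower F hw) hαβ ?_ ?_ hP hxP⟩
    · intro f
      obtain ⟨b, hb0, hb⟩ := (halg.isAlgebraic f).exists_integral_multiple
      refine ⟨b • f, hmem hb, algebraMap k[X] K b, hmem isIntegral_algebraMap, ?_, ?_⟩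
      · intro h
        exact hb0 (hinj (by rw [h, map_zero]))
      · have : algebraMap k[X] K b ≠ 0 := fun h => hb0 (hinj (by rw [h, map_zero]))
        rw [Algebra.smul_def, mul_div_cancel_left₀ _ this]
    · intro f hf
      apply hmem
      apply isIntegral_of_forall
      intro V hV
      apply hf V
      · intro c
        rw [← algebraMap_C]; exact hV _
      · exact hV X

end

end Pool.Agent.H86.WSG
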