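import Pool.Agent.H86.WSG.Concrete

set_option autoImplicit false

namespace Pool.Agent.H86.WSG

open Finset

/-- the sum of the numbers `2 ^ m - 2 ^ t`, `t < m` -/
def T (m : ℕ) : ℤ := ((m : ℤ) - 1) * 2 ^ m + 1

lemma T_succ (m : ℕ) : T (m + 1) = (2 ^ (m + 1) - 1) + 2 * T m := by
  unfold T
  push_cast
  ring

lemma exists_digits (c : ℤ) (hc : 5 ≤ c) : ∀ m : ℕ, 1 ≤ m → ∀ r : ℤ, -2 ^ (m + 1) ≤ r - c * T m →
    (r - c * T m ≤ T m ∨ r - c * T m ≤ 2 ^ m) →
    ∃ ν : ℕ → ℤ, (∀ t < m, 1 ≤ ν t ∧ ν t ≤ c + 2) ∧ ν 0 % 2 = r % 2 ∧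
      ∑ t ∈ range m, ν t * (2 ^ m - 2 ^ t) = r := by
  intro m hm
  induction m, hm using Nat.le_induction with
  | base =>
    intro r h1 h2
    have hT : T 1 = 1 := by simp [T]
    rw [hT] at h1 h2
    refine ⟨fun _ => r, fun t _ => ?_, rfl, by simp⟩
    norm_num at h1 h2
    constructor
    · linarith
    · rcases h2 with h2 | h2 <;> linarith
  | succ m hm ih =>
    intro r h1 h2
    obtain ⟨a, ha1, ha2, ha3, ha4⟩ : ∃ a : ℤ, 1 ≤ a ∧ a ≤ c + 2 ∧ a % 2 = r % 2 ∧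
        ((0 ≤ r - c * T (m + 1) ∧ c + 1 ≤ a) ∨ (r - c * T (m + 1) < 0 ∧ c - 1 ≤ a ∧ a ≤ c)) := by
      by_cases hE : 0 ≤ r - c * T (m + 1)
      · refine ⟨c + 1 + (r - c - 1) % 2, by omega, by omega, by omega, Or.inl ⟨hE, by omega⟩⟩
      · refine ⟨c - 1 + (r - c + 1) % 2, by omega, by omega, by omega,
          Or.inr ⟨by omega, by omega, by omega⟩⟩
    obtain ⟨w, hw⟩ : ∃ w : ℤ, w = 2 ^ m := ⟨_, rfl⟩
    have hw1 : 1 ≤ w := by rw [hw]; exact one_le_pow₀ (by norm_num)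
    have e1 : (2 : ℤ) ^ (m + 1) = 2 * w := by rw [hw]; ring
    have e2 : (2 : ℤ) ^ (m + 1 + 1) = 4 * w := by rw [hw]; ring
    obtain ⟨b, hb⟩ : ∃ b : ℤ, b = r - a * (2 * w - 1) := ⟨_, rfl⟩
    have hb2 : b % 2 = 0 := by
      have : b = (r - a) + 2 * (a - a * w) := by rw [hb]; ring
      omega
    obtain ⟨r', hr'⟩ : ∃ r' : ℤ, b = 2 * r' := ⟨b / 2, by omega⟩
    rw [T_succ, e1] at h1 h2 ha4
    rw [e2] at h1
    have key : 2 * (r' - c * T m) = (r - c * (2 * w - 1 + 2 * T m)) - (a - c) * (2 * w - 1) := by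
      have : 2 * r' = r - a * (2 * w - 1) := by rw [← hr', hb]
      linear_combination this
    obtain ⟨ν, hν1, _, hν3⟩ := ih r' (by
        rw [e1]
        rcases ha4 with ⟨h3, h4⟩ | ⟨h3, h4, h5⟩
        · have h6 : (a - c) * (2 * w - 1) ≤ 2 * (2 * w - 1) :=
            mul_le_mul_of_nonneg_right (by linarith) (by linarith)
          linarith
        · have h6 : (a - c) * (2 * w - 1) ≤ 0 * (2 * w - 1) :=
            mul_le_mul_of_nonneg_right (by linarith) (by linarith)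
          linarith) (by
        rw [← hw]
        rcases ha4 with ⟨h3, h4⟩ | ⟨h3, h4, h5⟩
        · have h6 : 1 * (2 * w - 1) ≤ (a - c) * (2 * w - 1) :=
            mul_le_mul_of_nonneg_right (by linarith) (by linarith)
          rcases h2 with h2 | h2
          · left; linarith
          · right; linarith
        · right
          have h6 : (-1) * (2 * w - 1) ≤ (a - c) * (2 * w - 1) :=
            mul_le_mul_of_nonneg_right (by linarith) (by linarith)
          linarith)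
    refine ⟨fun t => if t = 0 then a else ν (t - 1), ?_, ?_, ?_⟩
    · intro t ht
      by_cases h0 : t = 0
      · simp only [h0, if_true]; exact ⟨ha1, ha2⟩
      · simp only [h0, if_false]; exact hν1 _ (by omega)
    · simp only [if_true]; exact ha3
    · rw [sum_range_succ']
      simp only [Nat.add_eq_zero_iff, one_ne_zero, and_false, if_false, Nat.add_sub_cancel, if_true,
        pow_zero]
      have h7 : ∑ t ∈ range m, ν t * ((2 : ℤ) ^ (m + 1) - 2 ^ (t + 1)) = 2 * r' := by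
        rw [← hν3, mul_sum]
        refine sum_congr rfl fun t _ => ?_
        ring
      rw [h7, e1, ← hr', hb]
      ring

/-- the choice of `n` -/
lemma exists_n (g : ℕ) (hg : 115 ≤ g) : ∃ n : ℕ, 4 ≤ n ∧ 5 * T n ≤ 2 * g + 2 ^ n - 1 ∧
    (2 * g + 2 ^ n - 1 : ℤ) < 13 * T n := by
  have hex : ∃ n : ℕ, 4 ≤ n ∧ (2 * g + 2 ^ (n + 1) - 1 : ℤ) < 5 * T (n + 1) := by
    refine ⟨g + 4, by omega, ?_⟩
    unfold T
    push_cast
    have h1 : (1 : ℤ) ≤ 2 ^ (g + 4 + 1) := one_le_pow₀ (by norm_num)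
    have hg0 : (0 : ℤ) ≤ g := Int.natCast_nonneg g
    nlinarith
  classical
  obtain ⟨n, hn, hmin⟩ : ∃ n : ℕ, (4 ≤ n ∧ (2 * g + 2 ^ (n + 1) - 1 : ℤ) < 5 * T (n + 1)) ∧
      ∀ m < n, ¬ (4 ≤ m ∧ (2 * g + 2 ^ (m + 1) - 1 : ℤ) < 5 * T (m + 1)) :=
    ⟨Nat.find hex, Nat.find_spec hex, fun m hm => Nat.find_min hex hm⟩
  refine ⟨n, hn.1, ?_, ?_⟩
  · rcases Nat.eq_or_lt_of_le hn.1 with h4 | h4
    · subst h4
      have hT : T 4 = 49 := by norm_num [T]
      rw [hT]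
      have : (115 : ℤ) ≤ g := by exact_mod_cast hg
      norm_num
      linarith
    · have h1 := hmin (n - 1) (by omega)
      have e : n - 1 + 1 = n := by omega
      rw [e] at h1
      push Not at h1
      exact h1 (by omega)
  · have h1 := hn.2
    have hn4 : (4 : ℤ) ≤ n := by exact_mod_cast hn.1
    unfold T at h1 ⊢
    push_cast at h1
    have e1 : (2 : ℤ) ^ (n + 1) = 2 * 2 ^ n := by ring
    rw [e1] at h1
    have hw : (1 : ℤ) ≤ 2 ^ n := one_le_pow₀ (by norm_num)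
    nlinarith

/-- every genus `g ≥ 115` is reached -/
lemma exists_nu (g : ℕ) (hg : 115 ≤ g) : ∃ (n : ℕ) (ν : ℕ → ℕ), 4 ≤ n ∧ 2 ^ n ≤ g ∧ ν 0 % 2 = 1 ∧
    (∀ l, 1 ≤ ν l ∧ ν l ≤ 14) ∧ (((Sg ν n : Set ℕ))ᶜ).Finite ∧ (((Sg ν n : Set ℕ))ᶜ).ncard = g := by
  obtain ⟨n, hn4, h1, h2⟩ := exists_n g hg
  have hn4' : (4 : ℤ) ≤ n := by exact_mod_cast hn4
  have hw : (1 : ℤ) ≤ 2 ^ n := one_le_pow₀ (by norm_num)
  have hT : 0 < T n := by unfold T; nlinarith
  set R : ℤ := 2 * g + 2 ^ n - 1 with hR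
  set c : ℤ := R / T n with hc
  have hE := Int.emod_add_mul_ediv R (T n)
  have hE0 := Int.emod_nonneg R hT.ne'
  have hE1 := Int.emod_lt_of_pos R hT
  have hc5 : 5 ≤ c := by
    rw [hc]; exact (Int.le_ediv_iff_mul_le hT).2 h1
  have hc12 : c < 13 := by
    rw [hc]; exact (Int.ediv_lt_iff_lt_mul hT).2 h2
  have hE' : R - c * T n = R % T n := by rw [← hc] at hE; linarith [mul_comm (T n) c]
  have hpos : (0 : ℤ) ≤ 2 ^ (n + 1) := by positivity
  obtain ⟨ν, hν1, hν2, hν3⟩ := exists_digits c hc5 n (by omega) R (by rw [hE']; linarith)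
    (Or.inl (by rw [hE']; linarith))
  set μ : ℕ → ℕ := fun l => if l < n then (ν l).toNat else 1 with hμ
  have hμc : ∀ l, l < n → (μ l : ℤ) = ν l := by
    intro l hl
    have := (hν1 l hl).1
    simp only [hμ, if_pos hl]
    omega
  have hR2 : R % 2 = 1 := by
    have : (2 : ℤ) ^ n = 2 * 2 ^ (n - 1) := by rw [← pow_succ']; congr 1; omega
    rw [hR, this]; omega
  have hμ0 : μ 0 % 2 = 1 := by
    have h3 := hμc 0 (by omega)
    rw [← h3] at hν2
    omega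
  obtain ⟨C, hC, hcard⟩ := exists_compl hμ0 n
  refine ⟨n, μ, hn4, ?_, hμ0, ?_, ?_, ?_⟩
  · have h3 : (14 : ℤ) * 2 ^ n ≤ 2 * g := by
      unfold T at h1
      nlinarith
    have h4 : (2 : ℤ) ^ n ≤ g := by linarith
    exact_mod_cast h4
  · intro l
    by_cases hl : l < n
    · have h3 := hμc l hl
      have h4 := hν1 l hl
      omega
    · simp only [hμ, if_neg hl]; omega
  · rw [← hC]; exact Finset.finite_toSet _
  · rw [← hC, Set.ncard_coe_finset]
    have h3 : ∑ l ∈ range n, (μ l : ℤ) * (2 ^ n - 2 ^ l) = R := by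
      rw [← hν3]
      refine sum_congr rfl fun l hl => ?_
      rw [hμc l (mem_range.1 hl)]
    rw [h3, hR] at hcard
    have h5 : (C.card : ℤ) = g := by linarith
    exact_mod_cast h5

end Pool.Agent.H86.WSG
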