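import Pool.Agent.H86.WSR.Kummer

set_option autoImplicit false
set_option linter.unusedSectionVars false

namespace Pool.Agent.H86.WSG

open Polynomial
open Pool.Agent.H86.WSR (node node_ne)

section poly

variable {k : Type} [Field k] [CharZero k]

variable {ν : ℕ → ℕ}

/-- the blocks of linear factors -/
noncomputable def B (k : Type) [Field k] (ν : ℕ → ℕ) (n i : ℕ) : k[X] :=
  ∏ t ∈ Finset.range (ν (n - 1 - i)), node k (Nat.pair i t)

/-- the denominators -/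
noncomputable def G (k : Type) [Field k] (ν : ℕ → ℕ) (n j : ℕ) : k[X] :=
  ∏ l ∈ Finset.range n, B k ν n l ^ (j / 2 ^ (l + 1))

/-- the radicand -/
noncomputable def radi (k : Type) [Field k] (ν : ℕ → ℕ) (n : ℕ) : k[X] := G k ν n (2 ^ n)

/-- the remainder -/
noncomputable def gg (k : Type) [Field k] (ν : ℕ → ℕ) (n j : ℕ) : k[X] :=
  ∏ l ∈ Finset.range n, B k ν n l ^ (2 ^ n / 2 ^ (l + 1) * (j % 2 ^ (l + 1)))

/-- the radical of the radicand -/
noncomputable def rd (k : Type) [Field k] (ν : ℕ → ℕ) (n : ℕ) : k[X] :=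
  ∏ l ∈ Finset.range n, B k ν n l

lemma B_ne (n i : ℕ) : B k ν n i ≠ 0 := Finset.prod_ne_zero_iff.2 fun _ _ => node_ne _

lemma G_ne (n j : ℕ) : G k ν n j ≠ 0 := Finset.prod_ne_zero_iff.2 fun _ _ => pow_ne_zero _ (B_ne _ _)

lemma rd_sqfree (n : ℕ) : Squarefree (rd k ν n) := by
  have e : rd k ν n = ∏ x ∈ (Finset.range n).sigma (fun i => Finset.range (ν (n - 1 - i))),
      (X - C ((Nat.pair x.1 x.2 : ℕ) : k)) := by
    rw [Finset.prod_sigma]
    rfl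
  rw [e]
  apply Separable.squarefree
  rw [separable_prod_X_sub_C_iff']
  rintro ⟨i, t⟩ _ ⟨i', t'⟩ _ h
  have h1 : Nat.pair i t = Nat.pair i' t' := by exact_mod_cast h
  rw [Nat.pair_eq_pair] at h1
  obtain ⟨rfl, rfl⟩ := h1
  rfl

lemma rd_ne (n : ℕ) : rd k ν n ≠ 0 := (rd_sqfree n).ne_zero

lemma radi_pow (n j : ℕ) : radi k ν n ^ j = G k ν n j ^ (2 ^ n) * gg k ν n j := by
  rw [radi, gg, G, G, ← Finset.prod_pow, ← Finset.prod_pow, ← Finset.prod_mul_distrib]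
  refine Finset.prod_congr rfl fun l hl => ?_
  rw [← pow_mul, ← pow_mul, ← pow_add]
  congr 1
  have hl' := Finset.mem_range.1 hl
  have h1 : 2 ^ n / 2 ^ (l + 1) * 2 ^ (l + 1) = 2 ^ n :=
    Nat.div_mul_cancel (pow_dvd_pow 2 (by omega))
  have h2 := Nat.div_add_mod j (2 ^ (l + 1))
  calc 2 ^ n / 2 ^ (l + 1) * j
      = 2 ^ n / 2 ^ (l + 1) * (2 ^ (l + 1) * (j / 2 ^ (l + 1)) + j % 2 ^ (l + 1)) := by rw [h2]
    _ = (2 ^ n / 2 ^ (l + 1) * 2 ^ (l + 1)) * (j / 2 ^ (l + 1))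
        + 2 ^ n / 2 ^ (l + 1) * (j % 2 ^ (l + 1)) := by ring
    _ = _ := by rw [h1, mul_comm (2 ^ n)]

lemma gg_dvd {n j : ℕ} (hj : j < 2 ^ n) : gg k ν n j ∣ rd k ν n ^ (2 ^ n - 1) := by
  rw [gg, rd, ← Finset.prod_pow]
  apply Finset.prod_dvd_prod_of_dvd
  intro l hl
  apply pow_dvd_pow
  have hl' := Finset.mem_range.1 hl
  have h1 : 2 ^ n / 2 ^ (l + 1) * 2 ^ (l + 1) = 2 ^ n :=
    Nat.div_mul_cancel (pow_dvd_pow 2 (by omega))
  have h2 : j % 2 ^ (l + 1) < 2 ^ (l + 1) := Nat.mod_lt _ (by positivity)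
  have h3 : 0 < 2 ^ n / 2 ^ (l + 1) :=
    Nat.div_pos (Nat.pow_le_pow_right (by norm_num) (by omega)) (by positivity)
  have h4 : 2 ^ n / 2 ^ (l + 1) * (j % 2 ^ (l + 1)) < 2 ^ n / 2 ^ (l + 1) * 2 ^ (l + 1) :=
    Nat.mul_lt_mul_of_pos_left h2 h3
  omega

lemma unit_of_pow_dvd {n : ℕ} {b : k[X]} (hb : b ^ 2 ^ n ∣ rd k ν n ^ (2 ^ n - 1)) : IsUnit b := by
  by_contra hu
  have hH : rd k ν n ≠ 0 := rd_ne n
  have h2n : 0 < 2 ^ n := by positivity
  have hb0 : b ≠ 0 := by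
    rintro rfl
    rw [zero_pow h2n.ne', zero_dvd_iff] at hb
    exact pow_ne_zero _ hH hb
  obtain ⟨p, hp, hpb⟩ := WfDvdMonoid.exists_irreducible_factor hu hb0
  have hpr : Prime p := hp.prime
  have h3 : p ^ 2 ^ n ∣ rd k ν n ^ (2 ^ n - 1) := (pow_dvd_pow_of_dvd hpb _).trans hb
  have h4 : p ∣ rd k ν n := hpr.dvd_of_dvd_pow ((dvd_pow_self p h2n.ne').trans h3)
  obtain ⟨u, hu'⟩ := h4
  rw [hu', mul_pow] at h3
  have h5 : p ∣ u ^ (2 ^ n - 1) := by
    have : p ^ (2 ^ n - 1) * p ∣ p ^ (2 ^ n - 1) * u ^ (2 ^ n - 1) := by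
      rw [← pow_succ, Nat.sub_add_cancel h2n]; exact h3
    exact (mul_dvd_mul_iff_left (pow_ne_zero _ hp.ne_zero)).1 this
  have h6 : p ∣ u := hpr.dvd_of_dvd_pow h5
  have h7 : p * p ∣ rd k ν n := by rw [hu']; exact mul_dvd_mul_left p h6
  exact hp.not_isUnit (rd_sqfree n p h7)

lemma mem_of_pow {n : ℕ} {F : Type} [Field F] [Algebra k[X] F] [IsFractionRing k[X] F] {s : F}
    {g c : k[X]} (hg : g ∣ rd k ν n ^ (2 ^ n - 1))
    (hs : s ^ 2 ^ n * algebraMap k[X] F g = algebraMap k[X] F c) :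
    ∃ p : k[X], s = algebraMap k[X] F p := by
  obtain ⟨a, b, hab, hb⟩ := IsFractionRing.exists_reduced_fraction (A := k[X]) s
  have hb0 : (b : k[X]) ≠ 0 := nonZeroDivisors.ne_zero b.2
  have hb0' : algebraMap k[X] F b ≠ 0 := by
    rw [Ne, IsFractionRing.to_map_eq_zero_iff]; exact hb0
  have hs' : s = algebraMap k[X] F a / algebraMap k[X] F b := by
    rw [← hb, IsFractionRing.mk'_eq_div]
  have h3 : a ^ 2 ^ n * g = c * (b : k[X]) ^ 2 ^ n := by
    apply IsFractionRing.injective k[X] F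
    rw [hs', div_pow, div_mul_eq_mul_div, div_eq_iff (pow_ne_zero _ hb0')] at hs
    rw [map_mul, map_mul, map_pow, map_pow]
    exact hs
  have h4 : (b : k[X]) ^ 2 ^ n ∣ g := by
    have h5 : (b : k[X]) ^ 2 ^ n ∣ a ^ 2 ^ n * g := ⟨c, by rw [h3]; ring⟩
    have h6 : IsCoprime ((b : k[X]) ^ 2 ^ n) (a ^ 2 ^ n) := by
      apply IsCoprime.pow
      exact hab.symm.isCoprime
    exact h6.dvd_of_dvd_mul_left h5
  have hu : IsUnit (b : k[X]) := unit_of_pow_dvd (h4.trans hg)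
  obtain ⟨v, hv⟩ := hu.exists_left_inv
  refine ⟨v * a, ?_⟩
  rw [hs', map_mul, div_eq_iff hb0']
  have : algebraMap k[X] F v * algebraMap k[X] F b = 1 := by rw [← map_mul, hv, map_one]
  linear_combination (-algebraMap k[X] F a) * this

lemma G_zero (n : ℕ) : G k ν n 0 = 1 := by
  unfold G
  simp

lemma G_add {n m j : ℕ} (hj : j < 2 ^ m) : G k ν n (j + 2 ^ m) = G k ν n j * G k ν n (2 ^ m) := by
  unfold G
  rw [← Finset.prod_mul_distrib]
  refine Finset.prod_congr rfl fun l _ => ?_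
  rw [← pow_add]
  congr 1
  rcases Nat.lt_or_ge m (l + 1) with h | h
  · have h1 : 2 ^ (m + 1) ≤ 2 ^ (l + 1) := Nat.pow_le_pow_right (by norm_num) h
    rw [pow_succ] at h1
    rw [Nat.div_eq_of_lt (by omega), Nat.div_eq_of_lt (by omega), Nat.div_eq_of_lt (by omega)]
  · obtain ⟨t, rfl⟩ := Nat.exists_eq_add_of_le h
    rw [pow_add, Nat.add_mul_div_left _ _ (by positivity), Nat.mul_div_cancel_left _ (by positivity)]

lemma G_succ {n i : ℕ} (hi : i < n) : G k ν n (2 ^ (i + 1)) = G k ν n (2 ^ i) ^ 2 * B k ν n i := by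
  have h1 : B k ν n i = ∏ l ∈ Finset.range n, B k ν n l ^ (if l = i then 1 else 0) := by
    rw [Finset.prod_eq_single i]
    · simp
    · intro l _ hl; simp [hl]
    · intro h; exact absurd (Finset.mem_range.2 hi) h
  rw [h1]
  unfold G
  rw [← Finset.prod_pow, ← Finset.prod_mul_distrib]
  refine Finset.prod_congr rfl fun l _ => ?_
  rw [← pow_mul, ← pow_add]
  congr 1
  rcases lt_trichotomy l i with h | h | h
  · rw [if_neg h.ne]
    obtain ⟨t, rfl⟩ := Nat.exists_eq_add_of_lt h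
    have e1 : 2 ^ (l + t + 1 + 1) = 2 ^ (l + 1) * (2 ^ t * 2) := by ring
    have e2 : 2 ^ (l + t + 1) = 2 ^ (l + 1) * 2 ^ t := by ring
    rw [e1, e2, Nat.mul_div_cancel_left _ (by positivity), Nat.mul_div_cancel_left _ (by positivity)]
    ring
  · subst h
    rw [if_pos rfl, Nat.div_self (by positivity),
      Nat.div_eq_of_lt (Nat.pow_lt_pow_right (by norm_num) (Nat.lt_succ_self l))]
  · rw [if_neg h.ne', Nat.div_eq_of_lt (Nat.pow_lt_pow_right (by norm_num) (by omega)),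
      Nat.div_eq_of_lt (Nat.pow_lt_pow_right (by norm_num) (by omega))]

end poly

end Pool.Agent.H86.WSG
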