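import Mathlib

set_option autoImplicit false

/-! # A family of numerical semigroups -/

namespace Pool.Agent.H86.WSG

open Finset

/-- the sums `ν_0 + 2 ν_1 + ... + 2 ^ (m - 1) ν_(m-1)` -/
def D (ν : ℕ → ℕ) (m : ℕ) : ℕ := ∑ l ∈ range m, ν l * 2 ^ l

lemma D_succ (ν : ℕ → ℕ) (m : ℕ) : D ν (m + 1) = D ν m + ν m * 2 ^ m := sum_range_succ _ _

lemma D_odd {ν : ℕ → ℕ} (h0 : ν 0 % 2 = 1) {m : ℕ} (hm : 1 ≤ m) : D ν m % 2 = 1 := by
  obtain ⟨m, rfl⟩ : ∃ m', m = m' + 1 := ⟨m - 1, by omega⟩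
  unfold D
  rw [sum_range_succ']
  have h1 : ∑ l ∈ range m, ν (l + 1) * 2 ^ (l + 1) = 2 * ∑ l ∈ range m, ν (l + 1) * 2 ^ l := by
    rw [mul_sum]
    refine sum_congr rfl fun l _ => ?_
    ring
  rw [h1, pow_zero, mul_one]
  omega

/-- the generators -/
def gw (ν : ℕ → ℕ) (n : ℕ) : Fin (n + 1) → ℕ :=
  Fin.cons (2 ^ n) (fun i : Fin n => 2 ^ (i : ℕ) * D ν (n - i))

@[simp] lemma gw_zero (ν : ℕ → ℕ) (n : ℕ) : gw ν n 0 = 2 ^ n := rfl
@[simp] lemma gw_succ (ν : ℕ → ℕ) (n : ℕ) (i : Fin n) : gw ν n i.succ = 2 ^ (i : ℕ) * D ν (n - i) := by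
  simp [gw]

/-- the weight of a vector of exponents -/
def wt (ν : ℕ → ℕ) {n : ℕ} (u : Fin (n + 1) → ℕ) : ℕ := ∑ i, u i * gw ν n i

/-- the degree in the last variables -/
def dg {n : ℕ} (u : Fin (n + 1) → ℕ) : ℕ := ∑ i : Fin n, u i.succ

/-- normal forms -/
def Nf {n : ℕ} (u : Fin (n + 1) → ℕ) : Prop := ∀ i : Fin n, u i.succ < 2

variable {ν : ℕ → ℕ}

lemma wt_add {n : ℕ} (u v : Fin (n + 1) → ℕ) : wt ν (u + v) = wt ν u + wt ν v := by
  simp only [wt, Pi.add_apply, add_mul, sum_add_distrib]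

lemma dg_add {n : ℕ} (u v : Fin (n + 1) → ℕ) : dg (u + v) = dg u + dg v := by
  simp only [dg, Pi.add_apply, sum_add_distrib]

lemma wt_single {n : ℕ} (j : Fin (n + 1)) (c : ℕ) :
    wt ν (Pi.single j c : Fin (n + 1) → ℕ) = c * gw ν n j := by
  unfold wt
  rw [Finset.sum_eq_single j]
  · simp
  · intro b _ hb; simp [Pi.single_eq_of_ne hb]
  · simp

lemma dg_single_succ {n : ℕ} (j : Fin n) (c : ℕ) :
    dg (Pi.single j.succ c : Fin (n + 1) → ℕ) = c := by
  unfold dg
  rw [Finset.sum_eq_single j]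
  · simp
  · intro b _ hb
    rw [Pi.single_eq_of_ne]
    exact fun h => hb (Fin.succ_injective _ h)
  · simp

lemma dg_single_zero {n : ℕ} (c : ℕ) : dg (Pi.single 0 c : Fin (n + 1) → ℕ) = 0 := by
  unfold dg
  apply Finset.sum_eq_zero
  intro i _
  rw [Pi.single_eq_of_ne (Fin.succ_ne_zero i)]

lemma wt_eq {n : ℕ} (u : Fin (n + 1) → ℕ) :
    wt ν u = 2 ^ n * u 0 + ∑ i : Fin n, u i.succ * (2 ^ (i : ℕ) * D ν (n - i)) := by
  unfold wt
  rw [Fin.sum_univ_succ, gw_zero, mul_comm]
  simp only [gw_succ]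

lemma inj_aux (n : ℕ) : ∀ (d : Fin n → ℕ), (∀ i, d i % 2 = 1) → ∀ (A A' : ℕ) (e e' : Fin n → ℕ),
    (∀ i, e i < 2) → (∀ i, e' i < 2) →
    2 ^ n * A + ∑ i : Fin n, e i * (2 ^ (i : ℕ) * d i) =
      2 ^ n * A' + ∑ i : Fin n, e' i * (2 ^ (i : ℕ) * d i) → e = e' ∧ A = A' := by
  induction n with
  | zero =>
    intro d _ A A' e e' _ _ h
    refine ⟨funext fun i => i.elim0, ?_⟩
    simpa using h
  | succ n ih =>
    intro d hd A A' e e' he he' h
    have h1 : ∀ (A : ℕ) (e : Fin (n + 1) → ℕ),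
        2 ^ (n + 1) * A + ∑ i : Fin (n + 1), e i * (2 ^ (i : ℕ) * d i) =
        e 0 * d 0 + 2 * (2 ^ n * A + ∑ i : Fin n, e i.succ * (2 ^ (i : ℕ) * d i.succ)) := by
      intro A e
      rw [Fin.sum_univ_succ, mul_add, Finset.mul_sum]
      simp only [Fin.val_zero, pow_zero, one_mul, Fin.val_succ]
      have : ∀ i : Fin n, e i.succ * (2 ^ ((i : ℕ) + 1) * d i.succ) =
          2 * (e i.succ * (2 ^ (i : ℕ) * d i.succ)) := by
        intro i; ring
      simp only [this]
      ring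
    rw [h1, h1] at h
    have h0 := he 0
    have h0' := he' 0
    have hd0 := hd 0
    have e0 : e 0 = e' 0 := by
      have c1 : e 0 = 0 ∨ e 0 = 1 := by omega
      have c2 : e' 0 = 0 ∨ e' 0 = 1 := by omega
      rcases c1 with c1 | c1 <;> rcases c2 with c2 | c2
      · rw [c1, c2]
      · rw [c1, c2] at h; omega
      · rw [c1, c2] at h; omega
      · rw [c1, c2]
    rw [e0] at h
    have h2 : 2 ^ n * A + ∑ i : Fin n, e i.succ * (2 ^ (i : ℕ) * d i.succ) =
        2 ^ n * A' + ∑ i : Fin n, e' i.succ * (2 ^ (i : ℕ) * d i.succ) := by omega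
    obtain ⟨h3, h4⟩ := ih (fun i => d i.succ) (fun i => hd _) A A' (fun i => e i.succ)
      (fun i => e' i.succ) (fun i => he _) (fun i => he' _) h2
    refine ⟨funext fun i => ?_, h4⟩
    refine Fin.cases e0 (fun i => ?_) i
    exact congrFun h3 i

lemma wt_inj (h0 : ν 0 % 2 = 1) {n : ℕ} {u v : Fin (n + 1) → ℕ} (hu : Nf u) (hv : Nf v)
    (h : wt ν u = wt ν v) : u = v := by
  rw [wt_eq, wt_eq] at h
  obtain ⟨h1, h2⟩ := inj_aux n (fun i => D ν (n - i)) (fun i => D_odd h0 (by have := i.2; omega))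
    (u 0) (v 0) (fun i => u i.succ) (fun i => v i.succ) hu hv h
  funext j
  refine Fin.cases h2 (fun j => ?_) j
  exact congrFun h1 j

lemma rel_gw {n i : ℕ} (hi : i < n) :
    2 * (2 ^ i * D ν (n - i)) = 2 ^ n * ν (n - 1 - i) + 2 ^ (i + 1) * D ν (n - (i + 1)) := by
  obtain ⟨t, rfl⟩ := Nat.exists_eq_add_of_lt hi
  have e1 : i + t + 1 - i = t + 1 := by omega
  have e2 : i + t + 1 - 1 - i = t := by omega
  have e3 : i + t + 1 - (i + 1) = t := by omega
  rw [e1, e2, e3, D_succ]
  ring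

/-- the exponents of the leading term of the right side of the `i`-th relation -/
def red (ν : ℕ → ℕ) {n : ℕ} (i : Fin n) : Fin (n + 1) → ℕ :=
  if h : (i : ℕ) + 1 < n then Pi.single 0 (ν (n - 1 - i)) + Pi.single (⟨i + 1, h⟩ : Fin n).succ 1
  else Pi.single 0 (ν (n - 1 - i))

lemma wt_red {n : ℕ} (i : Fin n) : wt ν (red ν i) = 2 * gw ν n i.succ := by
  have h1 := rel_gw (ν := ν) i.2
  unfold red
  split_ifs with h
  · rw [wt_add, wt_single, wt_single, gw_zero, gw_succ, gw_succ, h1]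
    simp only
    ring
  · have hi : n = (i : ℕ) + 1 := by have := i.2; omega
    have h2 : n - ((i : ℕ) + 1) = 0 := by omega
    rw [h2] at h1
    rw [wt_single, gw_zero, gw_succ, h1]
    simp [D, mul_comm]

lemma dg_red {n : ℕ} (i : Fin n) : dg (red ν i) ≤ 1 := by
  unfold red
  split_ifs with h
  · rw [dg_add, dg_single_succ, dg_single_zero]
  · rw [dg_single_zero]; omega

lemma nf_red {n : ℕ} (i : Fin n) : Nf (red ν i) := by
  intro j
  have h1 : red ν i j.succ ≤ dg (red ν i) :=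
    Finset.single_le_sum (f := fun j : Fin n => red ν i j.succ) (fun _ _ => Nat.zero_le _) (mem_univ j)
  have := dg_red (ν := ν) i
  omega

/-- splitting off two copies of a variable -/
lemma split2 {n : ℕ} (u : Fin (n + 1) → ℕ) (i : Fin n) (hi : 2 ≤ u i.succ) :
    ∃ v : Fin (n + 1) → ℕ, u = v + Pi.single i.succ 2 := by
  refine ⟨Function.update u i.succ (u i.succ - 2), ?_⟩
  funext j
  by_cases hj : j = i.succ
  · subst hj
    simp only [Pi.add_apply, Function.update_self, Pi.single_eq_same]; omega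
  · simp only [Pi.add_apply, Function.update_of_ne hj, Pi.single_eq_of_ne hj, add_zero]

lemma exists_nf {n : ℕ} : ∀ (s : ℕ) (u : Fin (n + 1) → ℕ), dg u ≤ s →
    ∃ v : Fin (n + 1) → ℕ, Nf v ∧ wt ν v = wt ν u := by
  intro s
  induction s with
  | zero =>
    intro u hu
    refine ⟨u, fun i => ?_, rfl⟩
    have h1 : u i.succ ≤ dg u :=
      Finset.single_le_sum (f := fun j : Fin n => u j.succ) (fun _ _ => Nat.zero_le _) (mem_univ i)
    omega
  | succ s ih =>
    intro u hu
    by_cases h : Nf u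
    · exact ⟨u, h, rfl⟩
    unfold Nf at h
    push Not at h
    obtain ⟨i, hi⟩ := h
    obtain ⟨v, rfl⟩ := split2 u i hi
    obtain ⟨w, hw, hw'⟩ := ih (v + red ν i) (by
      rw [dg_add] at hu ⊢
      rw [dg_single_succ] at hu
      have := dg_red (ν := ν) i
      omega)
    refine ⟨w, hw, ?_⟩
    rw [hw', wt_add, wt_add, wt_red, wt_single]

/-- the semigroup -/
def Sg (ν : ℕ → ℕ) (n : ℕ) : AddSubmonoid ℕ := AddSubmonoid.closure (Set.range (gw ν n))

lemma mem_Sg_iff {n : ℕ} (m : ℕ) : m ∈ Sg ν n ↔ ∃ u : Fin (n + 1) → ℕ, Nf u ∧ wt ν u = m := by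
  constructor
  · intro h
    have h1 : ∃ u : Fin (n + 1) → ℕ, wt ν u = m := by
      induction h using AddSubmonoid.closure_induction with
      | mem x hx =>
        obtain ⟨j, rfl⟩ := hx
        exact ⟨Pi.single j 1, by rw [wt_single, one_mul]⟩
      | zero => exact ⟨0, by simp [wt]⟩
      | add x y _ _ hx hy =>
        obtain ⟨u, rfl⟩ := hx
        obtain ⟨v, rfl⟩ := hy
        exact ⟨u + v, wt_add u v⟩
    obtain ⟨u, rfl⟩ := h1
    exact exists_nf _ u le_rfl
  · rintro ⟨u, -, rfl⟩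
    unfold wt Sg
    refine sum_mem fun i _ => ?_
    rw [← smul_eq_mul]
    exact nsmul_mem (AddSubmonoid.subset_closure (Set.mem_range_self i)) _

lemma double_mem {n s : ℕ} (hs : s ∈ Sg ν n) : 2 * s ∈ Sg ν (n + 1) := by
  unfold Sg at hs
  induction hs using AddSubmonoid.closure_induction with
  | mem x hx =>
    obtain ⟨j, rfl⟩ := hx
    refine Fin.cases ?_ (fun i => ?_) j
    · have : 2 * gw ν n 0 = gw ν (n + 1) 0 := by rw [gw_zero, gw_zero, pow_succ']
      rw [this]; exact AddSubmonoid.subset_closure (Set.mem_range_self _)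
    · have : 2 * gw ν n i.succ = gw ν (n + 1) i.succ.succ := by
        rw [gw_succ, gw_succ, Fin.val_succ, Nat.add_sub_add_right]; ring
      rw [this]; exact AddSubmonoid.subset_closure (Set.mem_range_self _)
  | zero => exact zero_mem _
  | add x y _ _ hx hy => rw [mul_add]; exact add_mem hx hy

lemma D_mem (n : ℕ) : D ν (n + 1) ∈ Sg ν (n + 1) := by
  have : D ν (n + 1) = gw ν (n + 1) (0 : Fin (n + 1)).succ := by
    rw [gw_succ]; simp
  rw [this]; exact AddSubmonoid.subset_closure (Set.mem_range_self _)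

lemma mem_succ {n m : ℕ} : m ∈ Sg ν (n + 1) ↔ ∃ s ∈ Sg ν n, m = 2 * s ∨ m = 2 * s + D ν (n + 1) := by
  constructor
  · intro h
    obtain ⟨u, hu, rfl⟩ := (mem_Sg_iff m).1 h
    refine ⟨wt ν (Fin.cons (u 0) (fun j : Fin n => u j.succ.succ) : Fin (n + 1) → ℕ),
      (mem_Sg_iff _).2 ⟨_, fun j => ?_, rfl⟩, ?_⟩
    · rw [Fin.cons_succ]; exact hu j.succ
    · have h1 : wt ν u = 2 * wt ν (Fin.cons (u 0) (fun j : Fin n => u j.succ.succ) :
          Fin (n + 1) → ℕ) + u (0 : Fin (n + 1)).succ * D ν (n + 1) := by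
        rw [wt_eq, wt_eq, Fin.sum_univ_succ]
        simp only [Fin.cons_zero, Fin.cons_succ, Fin.val_zero, pow_zero, one_mul, Nat.sub_zero,
          Fin.val_succ, Nat.add_sub_add_right]
        rw [mul_add, mul_sum]
        have : ∀ j : Fin n, u j.succ.succ * (2 ^ ((j : ℕ) + 1) * D ν (n - j)) =
            2 * (u j.succ.succ * (2 ^ (j : ℕ) * D ν (n - j))) := by
          intro j; ring
        simp only [this]
        ring
      have h2 := hu 0
      rw [h1]
      have h3 : u (0 : Fin (n + 1)).succ = 0 ∨ u (0 : Fin (n + 1)).succ = 1 := by omega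
      rcases h3 with h3 | h3
      · left; rw [h3]; ring
      · right; rw [h3]; ring
  · rintro ⟨s, hs, rfl | rfl⟩
    · exact double_mem hs
    · exact add_mem (double_mem hs) (D_mem n)

lemma mem_zero (m : ℕ) : m ∈ Sg ν 0 := by
  rw [mem_Sg_iff]
  refine ⟨fun _ => m, fun i => i.elim0, ?_⟩
  simp [wt]

/-- the complement is finite and its size is the genus -/
lemma exists_compl (h0 : ν 0 % 2 = 1) (n : ℕ) : ∃ C : Finset ℕ, (C : Set ℕ) = ((Sg ν n : Set ℕ))ᶜ ∧
    (2 * C.card : ℤ) = ∑ l ∈ range n, (ν l : ℤ) * (2 ^ n - 2 ^ l) - 2 ^ n + 1 := by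
  induction n with
  | zero =>
    refine ⟨∅, ?_, by simp⟩
    ext m
    simp [mem_zero]
  | succ n ih =>
    obtain ⟨C, hC, hcard⟩ := ih
    have hmem : ∀ m, m ∈ C ↔ m ∉ Sg ν n := by
      intro m
      rw [← mem_coe, hC]; rfl
    have hD := D_odd h0 (m := n + 1) (by omega)
    set d := D ν (n + 1) with hd
    refine ⟨C.image (fun c => 2 * c) ∪ (C.image (fun c => 2 * c + d) ∪
      (range ((d - 1) / 2)).image (fun c => 2 * c + 1)), ?_, ?_⟩
    · ext m
      simp only [coe_union, coe_image, Set.mem_union, Set.mem_image, hmem, mem_range,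
        Set.mem_compl_iff, SetLike.mem_coe]
      rw [mem_succ, ← hd]
      push Not
      constructor
      · rintro (⟨c, hc, rfl⟩ | ⟨c, hc, rfl⟩ | ⟨c, hc, rfl⟩)
        · intro s hs
          refine ⟨fun h => ?_, by omega⟩
          have : s = c := by omega
          subst this; exact hc hs
        · intro s hs
          refine ⟨by omega, fun h => ?_⟩
          have : s = c := by omega
          subst this; exact hc hs
        · intro s hs
          exact ⟨by omega, by omega⟩
      · intro h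
        rcases Nat.even_or_odd' m with ⟨c, rfl | rfl⟩
        · left
          exact ⟨c, fun hc => (h c hc).1 rfl, rfl⟩
        · right
          by_cases hlt : 2 * c + 1 < d
          · right
            exact ⟨c, by omega, rfl⟩
          · left
            refine ⟨(2 * c + 1 - d) / 2, fun hc => ?_, by omega⟩
            exact (h _ hc).2 (by omega)
    · have hdisj : ∀ a ∈ C.image (fun c => 2 * c), a ∉ (C.image (fun c => 2 * c + d) ∪
          (range ((d - 1) / 2)).image (fun c => 2 * c + 1)) := by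
        intro a ha hb
        simp only [mem_image, mem_union, mem_range] at ha hb
        obtain ⟨c, _, rfl⟩ := ha
        rcases hb with ⟨c', _, h⟩ | ⟨c', _, h⟩
        · omega
        · omega
      have hdisj2 : ∀ a ∈ C.image (fun c => 2 * c + d),
          a ∉ (range ((d - 1) / 2)).image (fun c => 2 * c + 1) := by
        intro a ha hb
        simp only [mem_image, mem_range] at ha hb
        obtain ⟨c, _, rfl⟩ := ha
        obtain ⟨c', _, h⟩ := hb
        omega
      rw [card_union_of_disjoint (disjoint_left.2 hdisj), card_union_of_disjoint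
        (disjoint_left.2 hdisj2), card_image_of_injective _ (fun a b h => by simpa using h),
        card_image_of_injective _ (fun a b h => by simpa using h),
        card_image_of_injective _ (fun a b h => by simpa using h), card_range]
      have e1 : 2 * (((d - 1) / 2 : ℕ) : ℤ) = (d : ℤ) - 1 := by omega
      have e2 : (d : ℤ) = ∑ l ∈ range n, (ν l : ℤ) * 2 ^ l + ν n * 2 ^ n := by
        rw [hd, D_succ, D]; push_cast; ring
      have e3 : ∑ l ∈ range (n + 1), (ν l : ℤ) * (2 ^ (n + 1) - 2 ^ l) =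
          2 * ∑ l ∈ range n, (ν l : ℤ) * (2 ^ n - 2 ^ l) + ∑ l ∈ range n, (ν l : ℤ) * 2 ^ l
            + ν n * 2 ^ n := by
        rw [sum_range_succ, mul_sum, ← sum_add_distrib]
        congr 1
        · refine sum_congr rfl fun l _ => ?_
          ring
        · ring
      rw [e3, Nat.cast_add, Nat.cast_add]
      have e5 : (2 : ℤ) ^ (n + 1) = 2 * 2 ^ n := by ring
      rw [e5]
      linarith

end Pool.Agent.H86.WSG
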