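import Pool.Agent.H86.WSR.Unif
import Pool.Agent.H86.WSG.Semi

set_option autoImplicit false
set_option linter.unusedSectionVars false

namespace Pool.Agent.H86.WSG

open MvPolynomial IsLocalRing Pool.Agent.H86.WSR

variable {ν : ℕ → ℕ}

lemma single_le_deg {n : ℕ} (u : Fin (n + 1) → ℕ) (j : Fin (n + 1)) : u j ≤ u 0 + dg u := by
  refine Fin.cases ?_ (fun j => ?_) j
  · omega
  · have h1 : u j.succ ≤ dg u :=
      Finset.single_le_sum (f := fun j : Fin n => u j.succ) (fun _ _ => Nat.zero_le _)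
        (Finset.mem_univ j)
    omega

lemma D_ge {M : ℕ} (hν : ∀ l, 1 ≤ ν l ∧ ν l ≤ M) (m : ℕ) : 2 ^ m ≤ D ν m + 1 ∧ D ν m ≤ M * 2 ^ m := by
  induction m with
  | zero => simp [D]
  | succ m ih =>
    obtain ⟨h1, h2⟩ := ih
    obtain ⟨h3, h4⟩ := hν m
    rw [D_succ, pow_succ]
    have h5 : 1 * 2 ^ m ≤ ν m * 2 ^ m := Nat.mul_le_mul_right _ h3
    have h6 : ν m * 2 ^ m ≤ M * 2 ^ m := Nat.mul_le_mul_right _ h4
    constructor
    · omega
    · calc D ν m + ν m * 2 ^ m ≤ M * 2 ^ m + M * 2 ^ m := by omega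
        _ = M * (2 ^ m * 2) := by ring

lemma gw_ge {M : ℕ} (hν : ∀ l, 1 ≤ ν l ∧ ν l ≤ M) {n : ℕ} (j : Fin (n + 1)) :
    2 ^ n ≤ 2 * gw ν n j ∧ gw ν n j ≤ M * 2 ^ n := by
  have hM : 1 ≤ M := (hν 0).1.trans (hν 0).2
  refine Fin.cases ?_ (fun i => ?_) j
  · rw [gw_zero]
    exact ⟨by omega, Nat.le_mul_of_pos_left _ hM⟩
  · rw [gw_succ]
    obtain ⟨h1, h2⟩ := D_ge hν (n - i)
    have hi := i.2
    have e : 2 ^ n = 2 ^ (i : ℕ) * 2 ^ (n - i) := by rw [← pow_add]; congr 1; omega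
    have h3 : 2 ≤ 2 ^ (n - (i : ℕ)) := by
      calc 2 = 2 ^ 1 := (pow_one 2).symm
        _ ≤ 2 ^ (n - (i : ℕ)) := Nat.pow_le_pow_right (by norm_num) (by omega)
    constructor
    · calc 2 ^ n = 2 ^ (i : ℕ) * 2 ^ (n - i) := e
        _ ≤ 2 ^ (i : ℕ) * (2 * D ν (n - i)) := Nat.mul_le_mul_left _ (by omega)
        _ = 2 * (2 ^ (i : ℕ) * D ν (n - i)) := by ring
    · calc 2 ^ (i : ℕ) * D ν (n - i) ≤ 2 ^ (i : ℕ) * (M * 2 ^ (n - i)) := Nat.mul_le_mul_left _ h2
        _ = M * (2 ^ (i : ℕ) * 2 ^ (n - i)) := by ring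
        _ = M * 2 ^ n := by rw [← e]

lemma deg_eq {n : ℕ} (u : Fin (n + 1) → ℕ) : u 0 + dg u = ∑ j, u j := by
  rw [Fin.sum_univ_succ]; rfl

lemma deg_le {M : ℕ} (hν : ∀ l, 1 ≤ ν l ∧ ν l ≤ M) {n : ℕ} {u : Fin (n + 1) → ℕ} {i : Fin n}
    (h : wt ν u ≤ 2 * gw ν n i.succ) : u 0 + dg u ≤ 4 * M := by
  have h1 : 2 ^ n * (u 0 + dg u) ≤ 2 * wt ν u := by
    rw [deg_eq, wt, Finset.mul_sum, Finset.mul_sum]
    refine Finset.sum_le_sum fun j _ => ?_
    have := (gw_ge hν j).1
    calc 2 ^ n * u j ≤ (2 * gw ν n j) * u j := Nat.mul_le_mul_right _ this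
      _ = 2 * (u j * gw ν n j) := by ring
  have h2 := (gw_ge hν (n := n) i.succ).2
  have h3 : 2 ^ n * (u 0 + dg u) ≤ 2 ^ n * (4 * M) := by
    calc 2 ^ n * (u 0 + dg u) ≤ 2 * wt ν u := h1
      _ ≤ 2 * (2 * (M * 2 ^ n)) := by omega
      _ = 2 ^ n * (4 * M) := by ring
  exact Nat.le_of_mul_le_mul_left h3 (by positivity)

lemma gw_pos (h0 : ν 0 % 2 = 1) {n : ℕ} (j : Fin (n + 1)) : 1 ≤ gw ν n j := by
  refine Fin.cases ?_ (fun i => ?_) j
  · rw [gw_zero]; exact Nat.one_le_two_pow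
  · rw [gw_succ]
    have := D_odd h0 (m := n - i) (by have := i.2; omega)
    exact Nat.mul_pos (by positivity) (by omega)

open Classical in
/-- exponents of the normal form monomials in the `i`-th relation -/
noncomputable def PI (ν : ℕ → ℕ) {n : ℕ} (i : Fin n) : Finset (Fin (n + 1) → ℕ) :=
  (Fintype.piFinset fun _ => Finset.range (2 * gw ν n i.succ + 1)).filter fun u =>
    Nf u ∧ wt ν u ≤ 2 * gw ν n i.succ

lemma mem_PI (h0 : ν 0 % 2 = 1) {n : ℕ} {i : Fin n} {u : Fin (n + 1) → ℕ} :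
    u ∈ PI ν i ↔ Nf u ∧ wt ν u ≤ 2 * gw ν n i.succ := by
  classical
  unfold PI
  rw [Finset.mem_filter, Fintype.mem_piFinset]
  refine ⟨fun h => h.2, fun h => ⟨fun j => ?_, h⟩⟩
  have h1 : u j * gw ν n j ≤ wt ν u :=
    Finset.single_le_sum (f := fun j => u j * gw ν n j) (fun _ _ => Nat.zero_le _) (Finset.mem_univ j)
  have h2 : u j * 1 ≤ u j * gw ν n j := Nat.mul_le_mul_left _ (gw_pos h0 j)
  rw [Finset.mem_range]
  have := h.2
  omega

section general

variable {n : ℕ} {k : Type} [Field k] {R : Type} [CommRing R] [Algebra k R]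

/-- the monomial with exponents `u` -/
def mon (v : Fin (n + 1) → R) (u : Fin (n + 1) → ℕ) : R := ∏ i, v i ^ u i

lemma mon_add (v : Fin (n + 1) → R) (u u' : Fin (n + 1) → ℕ) :
    mon v (u + u') = mon v u * mon v u' := by
  simp only [mon, Pi.add_apply, pow_add, Finset.prod_mul_distrib]

lemma mon_single (v : Fin (n + 1) → R) (j : Fin (n + 1)) (c : ℕ) :
    mon v (Pi.single j c) = v j ^ c := by
  unfold mon
  rw [Finset.prod_eq_single j]
  · simp
  · intro b _ hb; simp [Pi.single_eq_of_ne hb]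
  · simp

lemma map_mon {R' : Type} [CommRing R'] [Algebra k R'] (φ : R →ₐ[k] R') (v : Fin (n + 1) → R)
    (u : Fin (n + 1) → ℕ) : φ (mon v u) = mon (fun j => φ (v j)) u := by
  simp only [mon, map_prod, map_pow]

/-- the span of the normal form monomials -/
def W (k : Type) [Field k] {R : Type} [CommRing R] [Algebra k R] (v : Fin (n + 1) → R) :
    Submodule k R :=
  Submodule.span k (Set.range fun τ : {τ : Fin (n + 1) → ℕ // Nf τ} => mon v τ)

/-- reduction to normal form -/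
lemma mon_mem_W (h0 : ν 0 % 2 = 1) (v : Fin (n + 1) → R) (A : (i : Fin n) → PI ν i → k)
    (h : ∀ i : Fin n, v i.succ ^ 2 = ∑ τ : PI ν i, A i τ • mon v τ) :
    ∀ (N s : ℕ) (u : Fin (n + 1) → ℕ), dg u ≤ s → wt ν u ≤ N → mon v u ∈ W k v := by
  intro N
  induction N using Nat.strong_induction_on with
  | _ N ihN =>
    intro s
    induction s with
    | zero =>
      intro u hs hw
      refine Submodule.subset_span ⟨⟨u, fun i => ?_⟩, rfl⟩
      have h1 : u i.succ ≤ dg u :=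
        Finset.single_le_sum (f := fun j : Fin n => u j.succ) (fun _ _ => Nat.zero_le _)
          (Finset.mem_univ i)
      omega
    | succ s ihs =>
      intro u hs hw
      by_cases hnf : Nf u
      · exact Submodule.subset_span ⟨⟨u, hnf⟩, rfl⟩
      unfold Nf at hnf
      push Not at hnf
      obtain ⟨i, hi⟩ := hnf
      obtain ⟨w, rfl⟩ := split2 u i hi
      rw [mon_add, mon_single, h i, Finset.mul_sum]
      refine Submodule.sum_mem _ fun τ _ => ?_
      rw [mul_smul_comm]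
      apply Submodule.smul_mem
      rw [← mon_add]
      obtain ⟨hτ1, hτ2⟩ := (mem_PI h0).1 τ.2
      rw [wt_add, wt_single] at hw
      rw [dg_add, dg_single_succ] at hs
      rcases hτ2.lt_or_eq with hlt | heq
      · refine ihN (wt ν (w + τ.1)) ?_ _ _ le_rfl le_rfl
        rw [wt_add]; omega
      · have e : (τ.1 : Fin (n + 1) → ℕ) = red ν i := wt_inj h0 hτ1 (nf_red i) (by rw [heq, wt_red])
        refine ihs _ ?_ ?_
        · rw [dg_add, e]
          have := dg_red (ν := ν) i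
          omega
        · rw [wt_add]; omega

/-- the equations -/
noncomputable def eqn (A : (i : Fin n) → PI ν i → k) (i : Fin n) : MvPolynomial (Fin (n + 1)) k :=
  X i.succ ^ 2 - ∑ τ : PI ν i, A i τ • mon X τ.1

lemma map_eqn (φ : MvPolynomial (Fin (n + 1)) k →ₐ[k] R) (A : (i : Fin n) → PI ν i → k) (i : Fin n) :
    φ (eqn A i) = φ (X i.succ) ^ 2 - ∑ τ : PI ν i, A i τ • mon (fun j => φ (X j)) τ.1 := by
  simp only [eqn, map_sub, map_pow, map_sum, map_smul, map_mon]

/-- elements of an algebra generated by the variables are in the span of normal forms -/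
lemma mem_span_of_rel (h0 : ν 0 % 2 = 1) (φ : MvPolynomial (Fin (n + 1)) k →ₐ[k] R) (A : (i : Fin n) → PI ν i → k)
    (h : ∀ i, φ (eqn A i) = 0) (q : MvPolynomial (Fin (n + 1)) k) :
    φ q ∈ W k (fun j => φ (X j)) := by
  have hred := mon_mem_W h0 (fun j => φ (X j)) A (fun i => by
    have := h i
    rw [map_eqn, sub_eq_zero] at this
    exact this)
  induction q using MvPolynomial.induction_on' with
  | monomial u a =>
    have h3 : (monomial u a : MvPolynomial (Fin (n + 1)) k) = a • mon X (fun j => u j) := by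
      rw [monomial_eq, Finsupp.prod_fintype _ _ (fun i => pow_zero _), smul_eq_C_mul]
      rfl
    rw [h3, map_smul, map_mon]
    exact Submodule.smul_mem _ _ (hred _ _ _ le_rfl le_rfl)
  | add p q hp hq => rw [map_add]; exact Submodule.add_mem _ hp hq

/-- the kernel of the evaluation is generated by the equations -/
lemma ker_eq (h0 : ν 0 % 2 = 1) (φ : MvPolynomial (Fin (n + 1)) k →ₐ[k] R) (A : (i : Fin n) → PI ν i → k)
    (h : ∀ i, φ (eqn A i) = 0)
    (hli : LinearIndependent k (fun τ : {τ : Fin (n + 1) → ℕ // Nf τ} =>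
      mon (fun j => φ (X j)) τ.1)) :
    RingHom.ker φ = Ideal.span (Set.range (eqn A)) := by
  have hJker : Ideal.span (Set.range (eqn A)) ≤ RingHom.ker φ := by
    rw [Ideal.span_le]
    rintro g ⟨i, rfl⟩
    exact h i
  refine le_antisymm (fun p hp => ?_) hJker
  set J : Ideal (MvPolynomial (Fin (n + 1)) k) := Ideal.span (Set.range (eqn A)) with hJ
  have g1 : ∀ i, Ideal.Quotient.mkₐ k J (eqn A i) = 0 := by
    intro i
    rw [Ideal.Quotient.mkₐ_eq_mk, Ideal.Quotient.eq_zero_iff_mem]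
    exact Ideal.subset_span ⟨i, rfl⟩
  have hN' := mem_span_of_rel h0 (Ideal.Quotient.mkₐ k J) A g1 p
  unfold W at hN'
  rw [Finsupp.mem_span_range_iff_exists_finsupp] at hN'
  obtain ⟨c, hc⟩ := hN'
  set q : MvPolynomial (Fin (n + 1)) k := c.sum fun τ a => a • mon X τ.1 with hq
  have hq1 : Ideal.Quotient.mkₐ k J q = Ideal.Quotient.mkₐ k J p := by
    rw [← hc, hq, Finsupp.sum, Finsupp.sum, map_sum]
    refine Finset.sum_congr rfl fun τ _ => ?_
    rw [map_smul, map_mon]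
  have hpq : p - q ∈ J := by
    rw [← Ideal.Quotient.eq_zero_iff_mem, ← Ideal.Quotient.mkₐ_eq_mk k, map_sub, hq1, sub_self]
  have hq0 : φ q = 0 := by
    have h3 : φ (p - q) = 0 := hJker hpq
    have h4 : φ p = 0 := hp
    rw [map_sub, h4, zero_sub, neg_eq_zero] at h3
    exact h3
  have hc0 : c = 0 := by
    rw [linearIndependent_iff] at hli
    apply hli
    rw [Finsupp.linearCombination_apply, ← hq0, hq, Finsupp.sum, Finsupp.sum, map_sum]
    refine Finset.sum_congr rfl fun τ _ => ?_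
    rw [map_smul, map_mon]
  have : q = 0 := by rw [hq, hc0]; simp
  rw [this, sub_zero] at hpq
  exact hpq

end general

section

variable {n : ℕ} {k K : Type} [Field k] [Field K] [Algebra k K]

lemma val_mon {P : ValuationSubring K} {q : P.ValueGroup} {v : Fin (n + 1) → K}
    (hv : ∀ j, P.valuation (v j) = q ^ gw ν n j) (τ : Fin (n + 1) → ℕ) :
    P.valuation (mon v τ) = q ^ wt ν τ := by
  simp only [mon, wt, map_prod, map_pow, hv, ← pow_mul, Finset.prod_pow_eq_pow_sum]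
  congr 1
  exact Finset.sum_congr rfl fun i _ => mul_comm _ _

lemma val_smul {P : ValuationSubring K} (hP : IsPoint k P) {c : k} (hc : c ≠ 0) (f : K) :
    P.valuation (c • f) = P.valuation f := by
  rw [Algebra.smul_def, map_mul, val_const hP hc, one_mul]

lemma val_smul_le {P : ValuationSubring K} (hP : IsPoint k P) (c : k) (f : K) :
    P.valuation (c • f) ≤ P.valuation f := by
  rw [Algebra.smul_def, map_mul]
  exact mul_le_of_le_one_left' (val_const_le hP c)

lemma val_sum_mon (h0 : ν 0 % 2 = 1) {P : ValuationSubring K} (hP : IsPoint k P) {q : P.ValueGroup} (hq : 1 < q)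
    {v : Fin (n + 1) → K} (hv : ∀ j, P.valuation (v j) = q ^ gw ν n j)
    (s : Finset {τ : Fin (n + 1) → ℕ // Nf τ})
    (g : {τ : Fin (n + 1) → ℕ // Nf τ} → k) (hg : ∃ i ∈ s, g i ≠ 0) :
    ∃ i ∈ s, g i ≠ 0 ∧ (∀ j ∈ s, g j ≠ 0 → wt ν j.1 ≤ wt ν i.1) ∧
      P.valuation (∑ i ∈ s, g i • mon v i.1) = q ^ wt ν i.1 := by
  classical
  have hne : (s.filter fun i => g i ≠ 0).Nonempty := by
    obtain ⟨i, hi, hi'⟩ := hg
    exact ⟨i, Finset.mem_filter.2 ⟨hi, hi'⟩⟩
  obtain ⟨i0, hi0, hmax⟩ := Finset.exists_max_image _ (fun i => wt ν i.1) hne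
  obtain ⟨hi0s, hgi0⟩ := Finset.mem_filter.1 hi0
  refine ⟨i0, hi0s, hgi0, fun j hj hgj => hmax j (Finset.mem_filter.2 ⟨hj, hgj⟩), ?_⟩
  rw [← Finset.add_sum_erase _ _ hi0s]
  have h1 : P.valuation (g i0 • mon v i0.1) = q ^ wt ν i0.1 := by
    rw [val_smul hP hgi0, val_mon hv]
  have hq0 : 0 < q := lt_trans zero_lt_one hq
  have h2 : P.valuation (∑ j ∈ s.erase i0, g j • mon v j.1) < q ^ wt ν i0.1 := by
    refine Valuation.map_sum_lt _ (pow_ne_zero _ hq0.ne') fun j hj => ?_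
    obtain ⟨hji, hjs⟩ := Finset.mem_erase.1 hj
    by_cases hgj : g j = 0
    · rw [hgj, zero_smul, map_zero]; exact pow_pos hq0 _
    · rw [val_smul hP hgj, val_mon hv]
      apply pow_lt_pow_right₀ hq
      have h3 := hmax j (Finset.mem_filter.2 ⟨hjs, hgj⟩)
      exact lt_of_le_of_ne h3 fun h4 => hji (Subtype.ext (wt_inj h0 j.2 i0.2 h4))
  rw [Valuation.map_add_eq_of_lt_left _ (by rw [h1]; exact h2), h1]

lemma linInd (h0 : ν 0 % 2 = 1) {P : ValuationSubring K} (hP : IsPoint k P) {q : P.ValueGroup} (hq : 1 < q)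
    {v : Fin (n + 1) → K} (hv : ∀ j, P.valuation (v j) = q ^ gw ν n j) :
    LinearIndependent k (fun τ : {τ : Fin (n + 1) → ℕ // Nf τ} => mon v τ.1) := by
  rw [linearIndependent_iff']
  intro s g h
  by_contra hcon
  push Not at hcon
  obtain ⟨i, _, _, _, h1⟩ := val_sum_mon h0 hP hq hv s g hcon
  rw [h, map_zero] at h1
  exact pow_ne_zero _ (lt_trans zero_lt_one hq).ne' h1.symm

lemma mon_mem {P : ValuationSubring K} {v : Fin (n + 1) → K} (hvR : ∀ j, v j ∈ regularAway k P)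
    (τ : Fin (n + 1) → ℕ) : mon v τ ∈ regularAway k P :=
  prod_mem fun j _ => pow_mem (hvR j) _

variable [IsAlgClosed k]

/-- the data of a pointed curve with semigroup `Sg ν n` -/
lemma span_regular (hK : IsFunctionField k K) {P : ValuationSubring K} (hP : IsPoint k P)
    {π : K} (hπ : IsUnif P π)
    (hS : weierstrassSemigroup k P = (Sg ν n : Set ℕ))
    {v : Fin (n + 1) → K} (hvR : ∀ j, v j ∈ regularAway k P)
    (hv : ∀ j, P.valuation (v j) = (P.valuation π)⁻¹ ^ gw ν n j) :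
    ∀ (N : ℕ) (f : K), f ∈ regularAway k P → P.valuation f < (P.valuation π)⁻¹ ^ N →
      f ∈ Submodule.span k (mon v '' {τ | Nf τ ∧ wt ν τ < N}) := by
  have hπ0 : P.valuation π ≠ 0 := (Valuation.ne_zero_iff _).2 hπ.ne
  have hq : 1 < (P.valuation π)⁻¹ := (one_lt_inv₀ (zero_lt_iff.2 hπ0)).2 hπ.lt
  intro N
  induction N with
  | zero =>
    intro f hf hlt
    rw [pow_zero] at hlt
    obtain ⟨c, hc⟩ := const_of_regular hf hlt.le
    by_cases h0 : c = 0
    · rw [← hc, h0, map_zero]; exact Submodule.zero_mem _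
    · rw [← hc, val_const hP h0] at hlt
      exact absurd hlt (lt_irrefl _)
  | succ N ih =>
    intro f hf hlt
    by_cases hf0 : f = 0
    · rw [hf0]; exact Submodule.zero_mem _
    obtain ⟨m, hn⟩ := hπ.exists_order hK hP hf hf0
    rw [hn] at hlt
    have hnN : m < N + 1 := (pow_lt_pow_iff_right₀ hq).1 hlt
    have hnS : m ∈ (Sg ν n : Set ℕ) := by
      rw [← hS]
      refine ⟨f, hf, (hπ.pole_iff f m).2 ⟨hf0, ?_⟩⟩
      rw [hn, ← mul_pow, inv_mul_cancel₀ hπ0, one_pow]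
    obtain ⟨u, hu, hum⟩ := (mem_Sg_iff m).1 hnS
    set e := mon v u with he
    have hve : P.valuation e = (P.valuation π)⁻¹ ^ m := by
      rw [he, val_mon hv, hum]
    have he0 : e ≠ 0 := by
      rw [← Valuation.ne_zero_iff P.valuation, hve]
      exact pow_ne_zero _ (inv_ne_zero hπ0)
    have hu1 : P.valuation (f / e) ≤ 1 := by
      rw [map_div₀, hn, hve, div_self (pow_ne_zero _ (inv_ne_zero hπ0))]
    obtain ⟨c, hc⟩ := exists_residue hK hP hπ.lt hπ.ne hu1
    have h1 : f - c • e = (f / e - algebraMap k K c) * e := by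
      rw [sub_mul, div_mul_cancel₀ _ he0, Algebra.smul_def]
    have h2 : P.valuation (f - c • e) < (P.valuation π)⁻¹ ^ N := by
      rw [h1, map_mul, hve]
      have hpos : 0 < (P.valuation π)⁻¹ ^ m := pow_pos (lt_trans zero_lt_one hq) _
      calc P.valuation (f / e - algebraMap k K c) * (P.valuation π)⁻¹ ^ m
          < 1 * (P.valuation π)⁻¹ ^ m := mul_lt_mul_of_pos_right hc hpos
        _ = (P.valuation π)⁻¹ ^ m := one_mul _
        _ ≤ (P.valuation π)⁻¹ ^ N := pow_le_pow_right₀ hq.le (by omega)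
    have h3 := ih (f - c • e) (sub_mem hf (Subalgebra.smul_mem _ (mon_mem hvR _) c)) h2
    have h4 : f = (f - c • e) + c • e := by ring
    rw [h4]
    apply Submodule.add_mem
    · refine Submodule.span_mono (Set.image_mono ?_) h3
      rintro τ ⟨g1, g2⟩
      exact ⟨g1, by omega⟩
    · apply Submodule.smul_mem
      apply Submodule.subset_span
      exact ⟨u, ⟨hu, by omega⟩, rfl⟩

lemma exists_coeffs (h0 : ν 0 % 2 = 1) {v : Fin (n + 1) → K} {i : Fin n} {f : K}
    (hf : f ∈ Submodule.span k (mon v '' {τ | Nf τ ∧ wt ν τ < 2 * gw ν n i.succ + 1})) :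
    ∃ A : PI ν i → k, f = ∑ τ : PI ν i, A τ • mon v τ.1 := by
  have h1 : mon v '' {τ | Nf τ ∧ wt ν τ < 2 * gw ν n i.succ + 1} =
      Set.range (fun τ : PI ν i => mon v τ.1) := by
    ext w
    constructor
    · rintro ⟨τ, h, rfl⟩
      exact ⟨⟨τ, (mem_PI h0).2 ⟨h.1, Nat.lt_succ_iff.1 h.2⟩⟩, rfl⟩
    · rintro ⟨τ, rfl⟩
      exact ⟨τ.1, ⟨((mem_PI h0).1 τ.2).1, Nat.lt_succ_iff.2 ((mem_PI h0).1 τ.2).2⟩, rfl⟩
  rw [h1, Submodule.mem_span_range_iff_exists_fun] at hf
  obtain ⟨A, hA⟩ := hf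
  exact ⟨A, hA.symm⟩

lemma large_mem (h0 : ν 0 % 2 = 1) (n : ℕ) : ∃ m, m ∈ Sg ν n ∧ m + 1 ∈ Sg ν n := by
  obtain ⟨C, hC, -⟩ := exists_compl h0 n
  obtain ⟨N, hN⟩ := C.bddAbove
  have key : ∀ m, N < m → m ∈ Sg ν n := by
    intro m hm
    by_contra h
    have h1 : m ∈ (C : Set ℕ) := by rw [hC]; exact h
    have := hN h1
    omega
  exact ⟨N + 1, key _ (by omega), key _ (by omega)⟩

/-- the coordinate ring of `C ∖ {P}` has a presentation in the family -/
lemma presentation (h0 : ν 0 % 2 = 1) (hK : IsFunctionField k K) {P : ValuationSubring K} (hP : IsPoint k P)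
    (hS : weierstrassSemigroup k P = (Sg ν n : Set ℕ)) :
    ∃ A : (i : Fin n) → PI ν i → k,
      Nonempty (regularAway k P ≃ₐ[k] MvPolynomial (Fin (n + 1)) k ⧸ Ideal.span (Set.range (eqn A))) := by
  have hmem : ∀ m, m ∈ Sg ν n → ∃ f ∈ regularAway k P, HasPoleOfOrder P f m := by
    intro m hm
    have h : m ∈ weierstrassSemigroup k P := by rw [hS]; exact hm
    exact h
  obtain ⟨m0, hm0, hm1⟩ := large_mem h0 n
  obtain ⟨a, -, ha⟩ := hmem m0 hm0
  obtain ⟨b, -, hb⟩ := hmem (m0 + 1) hm1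
  obtain ⟨π, hπ⟩ := exists_unif ha hb
  have hπ0 : P.valuation π ≠ 0 := (Valuation.ne_zero_iff _).2 hπ.ne
  have hq : 1 < (P.valuation π)⁻¹ := (one_lt_inv₀ (zero_lt_iff.2 hπ0)).2 hπ.lt
  have hval : ∀ j : Fin (n + 1), ∃ f ∈ regularAway k P,
      P.valuation f = (P.valuation π)⁻¹ ^ gw ν n j := by
    intro j
    obtain ⟨f, hf, hfn⟩ := hmem (gw ν n j) (AddSubmonoid.subset_closure (Set.mem_range_self j))
    obtain ⟨hf0, hf1⟩ := (hπ.pole_iff f _).1 hfn
    refine ⟨f, hf, ?_⟩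
    rw [inv_pow]
    exact eq_inv_of_mul_eq_one_left hf1
  choose v hvR hv using hval
  have hspan := span_regular hK hP hπ hS hvR hv
  have hco : ∀ i : Fin n, ∃ A : PI ν i → k, v i.succ ^ 2 = ∑ τ : PI ν i, A τ • mon v τ.1 := by
    intro i
    refine exists_coeffs h0 (hspan _ _ (pow_mem (hvR _) 2) ?_)
    rw [map_pow, hv, ← pow_mul]
    exact pow_lt_pow_right₀ hq (by omega)
  choose A hA using hco
  refine ⟨A, ?_⟩
  let φ : MvPolynomial (Fin (n + 1)) k →ₐ[k] K := aeval v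
  have e0 : (fun j => φ (X j)) = v := by funext j; simp [φ]
  have h1 : ∀ i, φ (eqn A i) = 0 := by
    intro i
    rw [map_eqn, e0]
    have : φ (X i.succ) = v i.succ := congrFun e0 _
    rw [this, hA, sub_self]
  have hker := ker_eq h0 φ A h1 (by rw [e0]; exact linInd h0 hP hq hv)
  have hrange : φ.range = regularAway k P := by
    apply le_antisymm
    · rintro _ ⟨p, rfl⟩
      change φ p ∈ regularAway k P
      have h3 := mem_span_of_rel h0 φ A h1 p
      rw [e0] at h3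
      have h4 : W k v ≤ Subalgebra.toSubmodule (regularAway k P) := by
        unfold W
        rw [Submodule.span_le]
        rintro _ ⟨τ, rfl⟩
        exact mon_mem hvR _
      exact h4 h3
    · intro f hf
      obtain ⟨N, hN⟩ : ∃ N, P.valuation f < (P.valuation π)⁻¹ ^ N := by
        by_cases hf0 : f = 0
        · exact ⟨0, by rw [hf0, map_zero, pow_zero]; exact zero_lt_one⟩
        · obtain ⟨m, hn⟩ := hπ.exists_order hK hP hf hf0
          exact ⟨m + 1, by rw [hn]; exact pow_lt_pow_right₀ hq (Nat.lt_succ_self m)⟩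
      have h3 := hspan N f hf hN
      have h4 : Submodule.span k (mon v '' {τ | Nf τ ∧ wt ν τ < N}) ≤
          Subalgebra.toSubmodule φ.range := by
        rw [Submodule.span_le]
        rintro _ ⟨τ, -, rfl⟩
        refine ⟨mon X τ, ?_⟩
        change φ _ = _
        rw [map_mon, e0]
      exact h4 h3
  have E1 : (MvPolynomial (Fin (n + 1)) k ⧸ RingHom.ker φ) ≃ₐ[k] φ.range :=
    Ideal.quotientKerEquivRange φ
  have E2 : (MvPolynomial (Fin (n + 1)) k ⧸ RingHom.ker φ) ≃ₐ[k]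
      (MvPolynomial (Fin (n + 1)) k ⧸ Ideal.span (Set.range (eqn A))) :=
    Ideal.quotientEquivAlgOfEq k hker
  exact ⟨((Subalgebra.equivOfEq _ _ hrange.symm).trans E1.symm).trans E2⟩

end

/-- the universal equations -/
noncomputable def univ {n m : ℕ} (k : Type) [Field k] (σ : (Σ i : Fin n, PI ν i) → Fin m) (i : Fin n) :
    MvPolynomial (Fin (n + 1)) (MvPolynomial (Fin m) k) :=
  X i.succ ^ 2 - ∑ τ : PI ν i, C (X (σ ⟨i, τ⟩)) * ∏ j, X j ^ τ.1 j

/-- The pointed curves with Weierstrass semigroup `Sg ν n` depend on a small number of parameters. -/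
theorem dependOnAtMost (h0 : ν 0 % 2 = 1) (k : Type) [Field k] [IsAlgClosed k] (n m : ℕ)
    (hm : ∑ i : Fin n, (PI ν i).card ≤ m) : DependOnAtMost k (Sg ν n : Set ℕ) m := by
  classical
  have hcard : Fintype.card (Σ i : Fin n, PI ν i) ≤ Fintype.card (Fin m) := by
    rw [Fintype.card_sigma, Fintype.card_fin]
    simpa only [Fintype.card_coe] using hm
  obtain ⟨σ⟩ := Function.Embedding.nonempty_of_card_le hcard
  refine ⟨n + 1, n, univ k σ, ?_⟩
  intro K _ _ hK P hP hS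
  obtain ⟨A, ⟨E⟩⟩ := presentation h0 hK hP hS
  set t : Fin m → k := Function.extend σ (fun x => A x.1 x.2) 0 with ht
  have htσ : ∀ x, t (σ x) = A x.1 x.2 := fun x => σ.injective.extend_apply _ _ x
  refine ⟨t, ⟨E.trans (Ideal.quotientEquivAlgOfEq k ?_)⟩⟩
  congr 2
  funext i
  simp only [univ, eqn, mon, map_sub, map_pow, map_sum, map_mul, map_prod, map_X, map_C, eval_X,
    htσ, smul_eq_C_mul]

end Pool.Agent.H86.WSG
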